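import Mathlib

set_option autoImplicit false

namespace Pool.Agent.Results.MP_952e1b_co.TypeII

open Filter Combinatorics

attribute [local instance] Ultrafilter.add Ultrafilter.addSemigroup

/-- `FE^II_n` of the sequence `x 0 < x 1 < ...`. -/
def FEII (x : ℕ → ℕ) : ℕ → Set ℕ
  | 0 => {x 0}
  | n + 1 => {z | ∃ y ∈ FEII x n, z = x (n + 1) ^ y} ∪ FEII x n ∪ {x (n + 1)}

/-- `C` is an exponential IP set of type II. -/
def IsExpIPII (C : Set ℕ) : Prop := ∃ x : ℕ → ℕ, StrictMono x ∧ ⋃ n, FEII x n ⊆ C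

/-! ### Ultrafilters on `ℕ+` -/

/-- Pushforward of an ultrafilter under multiplication by `2 ^ t`. -/
def dil (t : ℕ) (p : Ultrafilter ℕ+) : Ultrafilter ℕ+ := p.map (fun b => (2 : ℕ+) ^ t * b)

lemma mem_dil {t : ℕ} {p : Ultrafilter ℕ+} {A : Set ℕ+} :
    A ∈ dil t p ↔ {b : ℕ+ | (2 : ℕ+) ^ t * b ∈ A} ∈ p := Iff.rfl

lemma dil_dil (s t : ℕ) (p : Ultrafilter ℕ+) : dil s (dil t p) = dil (s + t) p := by
  apply Ultrafilter.coe_inj.mp
  apply Filter.ext
  intro A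
  show {b : ℕ+ | (2 : ℕ+) ^ t * b ∈ {b : ℕ+ | (2 : ℕ+) ^ s * b ∈ A}} ∈ p ↔
    {b : ℕ+ | (2 : ℕ+) ^ (s + t) * b ∈ A} ∈ p
  have : {b : ℕ+ | (2 : ℕ+) ^ t * b ∈ {b : ℕ+ | (2 : ℕ+) ^ s * b ∈ A}} =
    {b : ℕ+ | (2 : ℕ+) ^ (s + t) * b ∈ A} := by
    ext b
    simp only [Set.mem_ofPred_eq]
    rw [pow_add, mul_assoc]
  rw [this]

lemma dil_zero (p : Ultrafilter ℕ+) : dil 0 p = p := by
  apply Ultrafilter.coe_inj.mp
  apply Filter.ext
  intro A
  show {b : ℕ+ | (2 : ℕ+) ^ 0 * b ∈ A} ∈ p ↔ A ∈ p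
  simp

lemma continuous_dil (t : ℕ) : Continuous (dil t) :=
  ultrafilterBasis_is_basis.continuous_iff.2 <| Set.forall_mem_range.mpr fun s ↦
    ultrafilter_isOpen_basic {b : ℕ+ | (2 : ℕ+) ^ t * b ∈ s}

/-- The set of idempotent ultrafilters. -/
def Idem : Set (Ultrafilter ℕ+) := {U | U + U = U}

lemma dil_idem {U : Ultrafilter ℕ+} (hU : U ∈ Idem) (t : ℕ) : dil t U ∈ Idem := by
  have h : U + U = U := hU
  show dil t U + dil t U = dil t U
  apply Ultrafilter.coe_inj.mp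
  apply Filter.ext
  intro A
  have e1 : (A ∈ (dil t U + dil t U : Ultrafilter ℕ+)) ↔
      ∀ᶠ m in (U : Filter ℕ+), ∀ᶠ m' in (U : Filter ℕ+), (2 : ℕ+) ^ t * m + (2 : ℕ+) ^ t * m' ∈ A :=
    Iff.rfl
  have e2 : (A ∈ dil t U) ↔ ∀ᶠ m in (U : Filter ℕ+), (2 : ℕ+) ^ t * m ∈ A := Iff.rfl
  have e3 : (∀ᶠ m in ((U + U : Ultrafilter ℕ+) : Filter ℕ+), (2 : ℕ+) ^ t * m ∈ A) ↔
      ∀ᶠ m in (U : Filter ℕ+), ∀ᶠ m' in (U : Filter ℕ+), (2 : ℕ+) ^ t * (m + m') ∈ A := Iff.rfl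
  show A ∈ (dil t U + dil t U : Ultrafilter ℕ+) ↔ A ∈ dil t U
  rw [e1, e2]
  conv_rhs => rw [← h]
  rw [e3]
  simp only [mul_add]

lemma idem_large {U : Ultrafilter ℕ+} (hU : U ∈ Idem) (N : ℕ) : {n : ℕ+ | N < (n : ℕ)} ∈ U := by
  have h : U + U = U := hU
  induction N with
  | zero =>
    have : {n : ℕ+ | 0 < (n : ℕ)} = Set.univ := by
      ext n; simp
    rw [this]
    exact Filter.univ_mem
  | succ N ih =>
    rw [← h]
    show ∀ᶠ m in (U : Filter ℕ+), ∀ᶠ m' in (U : Filter ℕ+), m + m' ∈ {n : ℕ+ | N + 1 < (n : ℕ)}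
    filter_upwards [ih] with m hm
    apply Filter.Eventually.of_forall
    intro m'
    simp only [PNat.add_coe] at *
    have := m'.pos
    omega

lemma idem_nonempty : Idem.Nonempty := by
  obtain ⟨U, hU⟩ := exists_idempotent_of_compact_t2_of_continuous_add_left
    (@Ultrafilter.continuous_add_left ℕ+ _)
  exact ⟨U, hU⟩

/-- The closure of the set of idempotents. -/
def Gam : Set (Ultrafilter ℕ+) := closure Idem

lemma gam_large {U : Ultrafilter ℕ+} (hU : U ∈ Gam) (N : ℕ) : {n : ℕ+ | N < (n : ℕ)} ∈ U := by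
  have h : Gam ⊆ {U | {n : ℕ+ | N < (n : ℕ)} ∈ U} :=
    closure_minimal (fun U hU => idem_large hU N) (ultrafilter_isClosed_basic _)
  exact h hU

lemma gam_dil {U : Ultrafilter ℕ+} (hU : U ∈ Gam) (t : ℕ) : dil t U ∈ Gam := by
  have h : Set.MapsTo (dil t) Idem Idem := fun U hU => dil_idem hU t
  exact h.closure (continuous_dil t) hU

lemma gam_FS {U : Ultrafilter ℕ+} (hU : U ∈ Gam) {A : Set ℕ+} (hA : A ∈ U) :
    ∃ a : Stream' ℕ+, Hindman.FS a ⊆ A := by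
  have h := mem_closure_iff.mp hU {V | A ∈ V} (ultrafilter_isOpen_basic A) hA
  obtain ⟨V, hV, hVI⟩ := h
  exact Hindman.exists_FS_of_large V hVI A hV

open Hindman in
theorem FS_sum (a : Stream' ℕ+) (s : Finset ℕ) (hs : s.Nonempty) :
    ∃ n ∈ FS a, (n : ℕ) = ∑ i ∈ s, (a.get i : ℕ) := by
  suffices H : ∃ n ∈ FS (a.drop (s.min' hs)), (n : ℕ) = ∑ i ∈ s, (a.get i : ℕ) by
    obtain ⟨n, hn, h⟩ := H
    exact ⟨n, FS_iter_tail_sub_FS _ _ hn, h⟩
  induction s using Finset.eraseInduction with | H s ih => _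
  rw [← Finset.add_sum_erase _ _ (s.min'_mem hs)]
  rcases (s.erase (s.min' hs)).eq_empty_or_nonempty with h | h
  · rw [h, Finset.sum_empty, add_zero]
    refine ⟨a.get (s.min' hs), ?_, rfl⟩
    rw [← Stream'.head_drop]
    exact FS.head _
  · obtain ⟨n, hn, hn2⟩ := ih _ (s.min'_mem hs) h
    refine ⟨a.get (s.min' hs) + n, ?_, by rw [PNat.add_coe, hn2]⟩
    rw [← Stream'.head_drop]
    apply FS.cons
    rw [Stream'.tail_eq_drop, Stream'.drop_drop, add_comm]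
    have : s.min' hs + 1 ≤ (s.erase (s.min' hs)).min' h :=
      Nat.succ_le_of_lt (Finset.min'_lt_of_mem_erase_min' _ _ <| Finset.min'_mem _ _)
    obtain ⟨d, hd⟩ := Nat.exists_eq_add_of_le this
    rw [hd, ← Stream'.drop_drop, add_comm] at hn
    exact FS_iter_tail_sub_FS _ _ hn

/-- Nonempty closed invariant subsets of `Gam`. -/
def Sys : Set (Set (Ultrafilter ℕ+)) :=
  {N | IsClosed N ∧ N.Nonempty ∧ N ⊆ Gam ∧ ∀ p ∈ N, ∀ t, dil t p ∈ N}

lemma exists_minimal : ∃ M ∈ Sys, ∀ N ∈ Sys, N ⊆ M → N = M := by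
  have hG : Gam ∈ Sys :=
    ⟨isClosed_closure, idem_nonempty.mono subset_closure, subset_rfl, fun p hp t => gam_dil hp t⟩
  obtain ⟨M, hM⟩ := zorn_superset Sys (by
    intro c hc hchain
    rcases c.eq_empty_or_nonempty with he | hne
    · exact ⟨Gam, hG, by simp [he]⟩
    · refine ⟨⋂₀ c, ⟨?_, ?_, ?_, ?_⟩, fun s hs => Set.sInter_subset_of_mem hs⟩
      · exact isClosed_sInter fun N hN => (hc hN).1
      · have : Nonempty c := hne.to_subtype
        apply IsCompact.nonempty_sInter_of_directed_nonempty_isCompact_isClosed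
        · intro x hx y hy
          rcases hchain.total hx hy with h | h
          · exact ⟨x, hx, subset_rfl, h⟩
          · exact ⟨y, hy, h, subset_rfl⟩
        · exact fun N hN => (hc hN).2.1
        · exact fun N hN => (hc hN).1.isCompact
        · exact fun N hN => (hc hN).1
      · obtain ⟨N, hN⟩ := hne
        exact (Set.sInter_subset_of_mem hN).trans (hc hN).2.2.1
      · intro p hp t N hN
        exact (hc hN).2.2.2 p (hp N hN) t)
  exact ⟨M, hM.1, fun N hN hNM => subset_antisymm hNM (hM.2 hN hNM)⟩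

/-- Covering lemma. -/
lemma cover {M : Set (Ultrafilter ℕ+)} (hM : M ∈ Sys) (hmin : ∀ N ∈ Sys, N ⊆ M → N = M)
    {A : Set ℕ+} {p₀ : Ultrafilter ℕ+} (hp₀ : p₀ ∈ M) (hA : A ∈ p₀) :
    ∃ T : ℕ, ∀ p ∈ M, ∃ t ≤ T, A ∈ dil t p := by
  -- every orbit visits `A`
  have h1 : ∀ p ∈ M, ∃ t, A ∈ dil t p := by
    intro p hp
    let N : Set (Ultrafilter ℕ+) := closure (Set.range fun t => dil t p)
    have hNM : N ⊆ M := closure_minimal (by rintro _ ⟨t, rfl⟩; exact hM.2.2.2 p hp t) hM.1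
    have hN : N ∈ Sys := by
      refine ⟨isClosed_closure, ⟨dil 0 p, subset_closure ⟨0, rfl⟩⟩, hNM.trans hM.2.2.1, ?_⟩
      intro q hq s
      have hmt : Set.MapsTo (dil s) (Set.range fun t => dil t p) (Set.range fun t => dil t p) := by
        rintro _ ⟨t, rfl⟩
        exact ⟨s + t, (dil_dil s t p).symm⟩
      exact hmt.closure (continuous_dil s) hq
    have hEq := hmin N hN hNM
    have hp₀N : p₀ ∈ N := hEq ▸ hp₀
    obtain ⟨V, hV, ⟨t, rfl⟩⟩ := mem_closure_iff.mp hp₀N {V | A ∈ V} (ultrafilter_isOpen_basic A) hA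
    exact ⟨t, hV⟩
  -- compactness
  have hcomp : IsCompact M := hM.1.isCompact
  obtain ⟨s, hs⟩ := hcomp.elim_finite_subcover (fun t : ℕ => {p : Ultrafilter ℕ+ | A ∈ dil t p})
    (fun t => (ultrafilter_isOpen_basic A).preimage (continuous_dil t))
    (fun p hp => by
      obtain ⟨t, ht⟩ := h1 p hp
      exact Set.mem_iUnion.mpr ⟨t, ht⟩)
  refine ⟨s.sup id, fun p hp => ?_⟩
  obtain ⟨t, ht⟩ := Set.mem_iUnion.mp (hs hp)
  obtain ⟨hts, ht⟩ := Set.mem_iUnion.mp ht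
  exact ⟨t, Finset.le_sup (f := id) hts, ht⟩

/-- The key step. -/
lemma step {M : Set (Ultrafilter ℕ+)} (hM : M ∈ Sys) (hmin : ∀ N ∈ Sys, N ⊆ M → N = M)
    {A : Set ℕ+} {p : Ultrafilter ℕ+} (hp : p ∈ M) (hA : A ∈ p) (F : Finset ℕ) (N : ℕ) :
    ∃ n : ℕ+, N < (n : ℕ) ∧ n ∈ A ∧ ∃ p' ∈ M, A ∈ p' ∧
      ∀ f ∈ F, {b : ℕ+ | (2 : ℕ+) ^ (n * f : ℕ) * b ∈ A} ∈ p' := by
  classical
  obtain ⟨a, ha⟩ := gam_FS (hM.2.2.1 hp)
    (Filter.inter_mem hA (gam_large (hM.2.2.1 hp) N) : A ∩ {n : ℕ+ | N < (n : ℕ)} ∈ p)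
  obtain ⟨T, hT⟩ := cover hM hmin hp hA
  obtain ⟨ι, hι, hHJ⟩ := Line.exists_mono_in_high_dimension {x // x ∈ insert 0 F} (Fin (T + 1))
  let e : ι ≃ Fin (Fintype.card ι) := Fintype.equivFin ι
  let av : ι → ℕ := fun i => (a.get (e i : ℕ) : ℕ)
  let σ : (ι → {x // x ∈ insert 0 F}) → ℕ := fun w => ∑ i, av i * (w i : ℕ)
  have hcol : ∀ w : ι → {x // x ∈ insert 0 F}, ∃ t : Fin (T + 1), A ∈ dil (t + σ w) p := by
    intro w
    obtain ⟨t, ht, htA⟩ := hT (dil (σ w) p) (hM.2.2.2 p hp _)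
    refine ⟨⟨t, by omega⟩, ?_⟩
    rw [dil_dil] at htA
    exact htA
  choose C hC using hcol
  obtain ⟨l, c, hl⟩ := hHJ C
  -- the active coordinates
  let I : Finset ι := Finset.univ.filter fun i => l.idxFun i = none
  have hI : I.Nonempty := by
    obtain ⟨i, hi⟩ := l.proper
    exact ⟨i, by simp [I, hi]⟩
  obtain ⟨n, hnFS, hn⟩ := FS_sum a (I.map (e.toEmbedding.trans Fin.valEmbedding))
    (by simpa using hI)
  have hn' : (n : ℕ) = ∑ i ∈ I, av i := by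
    rw [hn, Finset.sum_map]
    rfl
  have hnA := ha hnFS
  let s0 : ℕ := ∑ i ∈ Iᶜ, av i * (l ⟨0, Finset.mem_insert_self _ _⟩ i : ℕ)
  have hσ : ∀ f : {x // x ∈ insert 0 F}, σ (l f) = s0 + n * f := by
    intro f
    show ∑ i, av i * (l f i : ℕ) = _
    rw [← Finset.sum_compl_add_sum I]
    congr 1
    · apply Finset.sum_congr rfl
      intro i hi
      have hi' : l.idxFun i ≠ none := by simpa [I] using hi
      obtain ⟨y, hy⟩ := Option.ne_none_iff_exists.mp hi'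
      simp [← hy]
    · rw [hn', Finset.sum_mul]
      apply Finset.sum_congr rfl
      intro i hi
      have hi' : l.idxFun i = none := by simpa [I] using hi
      rw [Line.apply_none _ _ _ hi']
  have hp' : dil (c + s0) p ∈ M := hM.2.2.2 p hp _
  have key : ∀ f : {x // x ∈ insert 0 F}, A ∈ dil (n * f) (dil (c + s0) p) := by
    intro f
    have h1 := hC (l f)
    rw [hl f, hσ f] at h1
    rw [dil_dil]
    convert h1 using 2
    ring
  refine ⟨n, hnA.2, hnA.1, dil (c + s0) p, hp', ?_, ?_⟩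
  · have := key ⟨0, Finset.mem_insert_self _ _⟩
    simp only [mul_zero] at this
    rwa [dil_zero] at this
  · intro f hf
    exact key ⟨f, Finset.mem_insert_of_mem hf⟩

/-! ### Type II -/

/-- The state of the greedy construction. -/
structure State (M : Set (Ultrafilter ℕ+)) (A₀ : Set ℕ+) where
  A : Set ℕ+
  S : Finset ℕ+
  b : ℕ+
  good : ∃ p ∈ M, A ∈ p
  sub : A ⊆ A₀
  Ssub : ∀ s ∈ S, s ∈ A₀
  mul : ∀ s ∈ S, ∀ c ∈ A, (2 : ℕ+) ^ (s : ℕ) * c ∈ A₀

lemma next {M : Set (Ultrafilter ℕ+)} (hM : M ∈ Sys) (hmin : ∀ N ∈ Sys, N ⊆ M → N = M)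
    {A₀ : Set ℕ+} (st : State M A₀) : ∃ st' : State M A₀, st.b < st'.b ∧
      ∀ z, z ∈ st'.S ↔ z ∈ st.S ∨ z = st'.b ∨ ∃ s ∈ st.S, z = st'.b * (2 : ℕ+) ^ (s : ℕ) := by
  classical
  obtain ⟨p, hp, hA⟩ := st.good
  obtain ⟨n, hnN, hnA, p', hp', hAp', hF⟩ := step hM hmin hp hA
    (insert 1 (st.S.image fun s : ℕ+ => 2 ^ (s : ℕ))) (st.b : ℕ)
  refine ⟨{
    A := st.A ∩ ⋂ f ∈ insert 1 (st.S.image fun s : ℕ+ => 2 ^ (s : ℕ)),
      {b : ℕ+ | (2 : ℕ+) ^ (n * f : ℕ) * b ∈ st.A}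
    S := st.S ∪ {n} ∪ st.S.image fun s : ℕ+ => n * (2 : ℕ+) ^ (s : ℕ)
    b := n
    good := ⟨p', hp', ?_⟩
    sub := fun b hb => st.sub hb.1
    Ssub := ?_
    mul := ?_ }, ?_, ?_⟩
  · apply Filter.inter_mem hAp'
    rw [Filter.biInter_finset_mem]
    exact hF
  · intro s hs
    simp only [Finset.mem_union, Finset.mem_singleton, Finset.mem_image] at hs
    rcases hs with (hs | rfl) | ⟨t, ht, rfl⟩
    · exact st.Ssub s hs
    · exact st.sub hnA
    · rw [mul_comm]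
      exact st.mul t ht n hnA
  · intro s hs c hc
    obtain ⟨hc1, hc2⟩ := hc
    simp only [Set.mem_iInter] at hc2
    simp only [Finset.mem_union, Finset.mem_singleton, Finset.mem_image] at hs
    rcases hs with (hs | rfl) | ⟨t, ht, rfl⟩
    · exact st.mul s hs c hc1
    · have := hc2 1 (Finset.mem_insert_self _ _)
      simp only [mul_one, Set.mem_ofPred_eq] at this
      exact st.sub this
    · have := hc2 (2 ^ (t : ℕ)) (Finset.mem_insert_of_mem (Finset.mem_image_of_mem _ ht))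
      simp only [Set.mem_ofPred_eq] at this
      apply st.sub
      simpa using this
  · exact_mod_cast hnN
  · intro z
    simp only [Finset.mem_union, Finset.mem_singleton, Finset.mem_image]
    constructor
    · rintro ((h | h) | ⟨s, hs, rfl⟩)
      · exact Or.inl h
      · exact Or.inr (Or.inl h)
      · exact Or.inr (Or.inr ⟨s, hs, rfl⟩)
    · rintro (h | h | ⟨s, hs, rfl⟩)
      · exact Or.inl (Or.inl h)
      · exact Or.inl (Or.inr h)
      · exact Or.inr ⟨s, hs, rfl⟩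

theorem typeII {r : ℕ} (c : ℕ → Fin r) : ∃ i, IsExpIPII (c ⁻¹' {i}) := by
  classical
  obtain ⟨M, hM, hmin⟩ := exists_minimal
  obtain ⟨p, hp⟩ := hM.2.1
  -- the colour class
  have hcol : ∃ i, {b : ℕ+ | c (2 ^ (b : ℕ)) = i} ∈ p := by
    have h : (⋃₀ (Set.range fun i : Fin r => {b : ℕ+ | c (2 ^ (b : ℕ)) = i})) ∈ p := by
      have e : (⋃₀ (Set.range fun i : Fin r => {b : ℕ+ | c (2 ^ (b : ℕ)) = i})) = Set.univ := by
        ext b
        simp
      rw [e]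
      exact Filter.univ_mem
    obtain ⟨s, ⟨i, rfl⟩, hs⟩ := (Ultrafilter.finite_sUnion_mem_iff (Set.finite_range _)).mp h
    exact ⟨i, hs⟩
  obtain ⟨i, hi⟩ := hcol
  set A₀ : Set ℕ+ := {b : ℕ+ | c (2 ^ (b : ℕ)) = i} with hA₀
  let st0 : State M A₀ :=
    { A := A₀, S := ∅, b := 1, good := ⟨p, hp, hi⟩, sub := subset_rfl, Ssub := by simp,
      mul := by simp }
  choose nxt hnxt using fun st : State M A₀ => next hM hmin st
  let st : ℕ → State M A₀ := fun n => Nat.rec (nxt st0) (fun _ s => nxt s) n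
  have st_succ : ∀ n, st (n + 1) = nxt (st n) := fun n => rfl
  let x : ℕ → ℕ := fun n => 2 ^ ((st n).b : ℕ)
  have hx : StrictMono x := by
    apply strictMono_nat_of_lt_succ
    intro n
    have := (hnxt (st n)).1
    rw [← st_succ] at this
    exact Nat.pow_lt_pow_right (by norm_num) (by exact_mod_cast this)
  have hS : ∀ n, FEII x n ⊆ {z | ∃ s ∈ (st n).S, z = 2 ^ (s : ℕ)} := by
    intro n
    induction n with
    | zero =>
      rintro z hz
      have hz' : z = x 0 := hz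
      refine ⟨(st 0).b, ?_, hz'⟩
      show (nxt st0).b ∈ (nxt st0).S
      rw [(hnxt st0).2]
      exact Or.inr (Or.inl rfl)
    | succ n ih =>
      have key := (hnxt (st n)).2
      rw [← st_succ] at key
      rintro z ((⟨y, hy, rfl⟩ | hz) | hz)
      · obtain ⟨s, hs, rfl⟩ := ih hy
        refine ⟨(st (n + 1)).b * (2 : ℕ+) ^ (s : ℕ), ?_, ?_⟩
        · rw [key]
          exact Or.inr (Or.inr ⟨s, hs, rfl⟩)
        · show (2 ^ ((st (n + 1)).b : ℕ)) ^ (2 ^ (s : ℕ)) = _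
          rw [← pow_mul]
          simp
      · obtain ⟨s, hs, rfl⟩ := ih hz
        refine ⟨s, ?_, rfl⟩
        rw [key]
        exact Or.inl hs
      · have hz' : z = x (n + 1) := hz
        refine ⟨(st (n + 1)).b, ?_, hz'⟩
        rw [key]
        exact Or.inr (Or.inl rfl)
  refine ⟨i, x, hx, ?_⟩
  apply Set.iUnion_subset
  intro n z hz
  obtain ⟨s, hs, rfl⟩ := hS n hz
  exact (st n).Ssub s hs

/-- In every partition of `ℕ` into finitely many cells, some cell is an exponential IP set of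
type II. -/
theorem result (r : ℕ) (c : ℕ → Fin r) : ∃ i, IsExpIPII (c ⁻¹' {i}) := typeII c

end Pool.Agent.Results.MP_952e1b_co.TypeII
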