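import Pool.Agent.Results.MP_952e1b_co.TypeI
import Pool.Agent.Results.MP_952e1b_co.TypeII

set_option autoImplicit false

namespace Pool.Agent.Results.MP_952e1b_co.BothTypes

/-- The complete answer for both types. Type II: in every finite partition of `ℕ` some cell is an
exponential IP set of type II. Type I: for every `r ≥ 2` there is a partition of `ℕ` into `r`
nonempty cells none of which is an exponential IP set of type I. -/
theorem result :
    (∀ (r : ℕ) (c : ℕ → Fin r), ∃ i, TypeII.IsExpIPII (c ⁻¹' {i})) ∧
    (∀ r : ℕ, 2 ≤ r → ∃ c : ℕ → Fin r, Function.Surjective c ∧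
      ∀ i, ¬ TypeI.IsExpIPI (c ⁻¹' {i})) :=
  ⟨TypeII.result, TypeI.result⟩

end Pool.Agent.Results.MP_952e1b_co.BothTypes
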