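import Mathlib

set_option autoImplicit false

namespace Pool.Agent.Results.MP_952e1b_co.TypeI

/-- `FE^I_n` of the sequence `x 0 < x 1 < ...`. -/
def FEI (x : ℕ → ℕ) : ℕ → Set ℕ
  | 0 => {x 0}
  | n + 1 => {z | ∃ y ∈ FEI x n, z = y ^ x (n + 1)} ∪ FEI x n ∪ {x (n + 1)}

/-- `C` is an exponential IP set of type I. -/
def IsExpIPI (C : Set ℕ) : Prop := ∃ x : ℕ → ℕ, StrictMono x ∧ ⋃ n, FEI x n ⊆ C

/-! ### Non-perfect powers -/

/-- `r ≥ 2` is not a perfect power. -/
def NP (r : ℕ) : Prop := 2 ≤ r ∧ ∀ a k, r = a ^ k → k = 1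

lemma np_eq {a b s t : ℕ} (ha : NP a) (hb : NP b) (hs : s ≠ 0) (h : a ^ s = b ^ t) : a = b := by
  obtain ⟨c, h1, h2⟩ := Nat.exists_eq_pow_of_pow_eq_pow (Or.inl hs) h
  have e1 := ha.2 _ _ h1
  have e2 := hb.2 _ _ h2
  rw [e1, pow_one] at h1
  rw [e2, pow_one] at h2
  rw [h1, h2]

lemma exists_root : ∀ n : ℕ, 2 ≤ n → ∃ r e, NP r ∧ 1 ≤ e ∧ n = r ^ e := by
  intro n
  induction n using Nat.strong_induction_on with
  | _ n ih =>
    intro hn
    by_cases h : NP n
    · exact ⟨n, 1, h, le_rfl, (pow_one n).symm⟩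
    · have : ∃ a k, n = a ^ k ∧ k ≠ 1 := by
        by_contra hcon
        push Not at hcon
        exact h ⟨hn, fun a k hak => hcon a k hak⟩
      obtain ⟨a, k, hak, hk1⟩ := this
      have hk0 : k ≠ 0 := by
        rintro rfl
        rw [pow_zero] at hak
        omega
      have ha2 : 2 ≤ a := by
        by_contra hlt
        have : a = 0 ∨ a = 1 := by omega
        rcases this with rfl | rfl
        · rw [zero_pow hk0] at hak; omega
        · rw [one_pow] at hak; omega
      have hlt : a < n := by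
        rw [hak]
        calc a = a ^ 1 := (pow_one a).symm
          _ < a ^ k := Nat.pow_lt_pow_right (by omega) (by omega)
      obtain ⟨r, e, hr, he, hae⟩ := ih a hlt ha2
      refine ⟨r, e * k, hr, ?_, ?_⟩
      · exact Nat.one_le_iff_ne_zero.mpr (Nat.mul_ne_zero (by omega) hk0)
      · rw [hak, hae, pow_mul]

/-- The determinant estimate. -/
lemma key {r s a b w v : ℕ} (hr : NP r) (hs : NP s) (hrs : r ≠ s) (ha : 1 ≤ a) (hb : 1 ≤ b)
    (h : a * r ^ w = b * s ^ v) : w ≤ 2 * max a b * s := by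
  have hr2 := hr.1
  have hs2 := hs.1
  -- find primes with a nonzero determinant
  have hdet : ∃ p q : ℕ, (r.factorization p : ℤ) * s.factorization q ≠
      r.factorization q * s.factorization p := by
    by_contra hcon
    push Not at hcon
    obtain ⟨p, hp, hpr⟩ := Nat.exists_prime_and_dvd (show r ≠ 1 by omega)
    have hA : r.factorization p ≠ 0 := by
      have := (hp.dvd_iff_one_le_factorization (show r ≠ 0 by omega)).mp hpr
      omega
    have heq : r ^ (s.factorization p) = s ^ (r.factorization p) := by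
      apply Nat.eq_of_factorization_eq (pow_ne_zero _ (by omega)) (pow_ne_zero _ (by omega))
      intro q
      rw [Nat.factorization_pow, Nat.factorization_pow]
      simp only [Finsupp.smul_apply, smul_eq_mul]
      have := hcon p q
      have h' : r.factorization p * s.factorization q = r.factorization q * s.factorization p := by
        exact_mod_cast this
      rw [h', mul_comm]
    have hC : s.factorization p ≠ 0 := by
      intro h0
      rw [h0, pow_zero] at heq
      have : s ^ 1 ≤ s ^ (r.factorization p) := Nat.pow_le_pow_right (by omega) (by omega)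
      rw [← heq, pow_one] at this
      omega
    exact hrs (np_eq hr hs hC heq)
  obtain ⟨p, q, hpq⟩ := hdet
  have hfac : ∀ x : ℕ, a.factorization x + w * r.factorization x =
      b.factorization x + v * s.factorization x := by
    intro x
    have : (a * r ^ w).factorization x = (b * s ^ v).factorization x := by rw [h]
    rw [Nat.factorization_mul (by omega) (pow_ne_zero _ (by omega)),
      Nat.factorization_mul (by omega) (pow_ne_zero _ (by omega)),
      Nat.factorization_pow, Nat.factorization_pow] at this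
    simpa using this
  have hp := hfac p
  have hq := hfac q
  have la1 : a.factorization p < a := Nat.factorization_lt p (by omega)
  have la2 : a.factorization q < a := Nat.factorization_lt q (by omega)
  have lb1 : b.factorization p < b := Nat.factorization_lt p (by omega)
  have lb2 : b.factorization q < b := Nat.factorization_lt q (by omega)
  have ls1 : s.factorization p < s := Nat.factorization_lt p (by omega)
  have ls2 : s.factorization q < s := Nat.factorization_lt q (by omega)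
  generalize a.factorization p = ap at *
  generalize a.factorization q = aq at *
  generalize b.factorization p = bp at *
  generalize b.factorization q = bq at *
  generalize s.factorization p = C at *
  generalize s.factorization q = D at *
  generalize r.factorization p = A at *
  generalize r.factorization q = B at *
  have hM1 : a ≤ max a b := le_max_left _ _
  have hM2 : b ≤ max a b := le_max_right _ _
  generalize max a b = M at *
  zify at *
  have e : (w : ℤ) * (A * D - B * C) = (bp - ap) * D - (bq - aq) * C := by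
    linear_combination D * hp - C * hq
  have h1 : |(A : ℤ) * D - B * C| ≥ 1 := by
    apply Int.one_le_abs
    intro h0
    exact hpq (by linarith)
  have h2 : (w : ℤ) ≤ |(w : ℤ) * (A * D - B * C)| := by
    rw [abs_mul, abs_of_nonneg (by positivity : (0:ℤ) ≤ w)]
    nlinarith [(by positivity : (0:ℤ) ≤ w)]
  have h3 : |((bp : ℤ) - ap) * D - (bq - aq) * C| ≤ M * s + M * s := by
    have t1 : |((bp : ℤ) - ap)| ≤ M := by
      rw [abs_le]; constructor <;> linarith
    have t2 : |((bq : ℤ) - aq)| ≤ M := by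
      rw [abs_le]; constructor <;> linarith
    calc |((bp : ℤ) - ap) * D - (bq - aq) * C| ≤ |((bp : ℤ) - ap) * D| + |((bq : ℤ) - aq) * C| :=
          abs_sub _ _
      _ = |((bp : ℤ) - ap)| * D + |((bq : ℤ) - aq)| * C := by
          rw [abs_mul, abs_mul, abs_of_nonneg (by positivity : (0:ℤ) ≤ D),
            abs_of_nonneg (by positivity : (0:ℤ) ≤ C)]
      _ ≤ M * s + M * s := by
          gcongr
  rw [e] at h2
  linarith


/-! ### Chains and exceptional numbers -/

/-- `m` is reached from `n` in `t` steps of the relation `S`. -/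
def Chain (S : ℕ → ℕ → Prop) : ℕ → ℕ → ℕ → Prop
  | 0, n, m => n = m
  | t + 1, n, m => ∃ u, S n u ∧ Chain S t u m

/-- Exceptional numbers: a chain from `n` to some `m ≥ L` has exactly `m + g` steps. -/
def Exc (S : ℕ → ℕ → Prop) (g L n : ℕ) : Prop := ∃ t m, Chain S t n m ∧ t = m + g ∧ L ≤ m

lemma chain_le {S : ℕ → ℕ → Prop} (hlt : ∀ n m, S n m → m < n) :
    ∀ t n m, Chain S t n m → m + t ≤ n
  | 0, n, m, h => by
    have : n = m := h
    omega
  | t + 1, n, m, ⟨u, hu, h⟩ => by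
    have := chain_le hlt t u m h
    have := hlt n u hu
    omega

lemma chain_seq {S : ℕ → ℕ → Prop} {n : ℕ → ℕ} (hn : ∀ t, S (n (t + 1)) (n t)) (s : ℕ) :
    ∀ t, Chain S t (n (s + t)) (n s)
  | 0 => rfl
  | t + 1 => ⟨n (s + t), hn (s + t), chain_seq hn s t⟩

lemma chain_seq_eq {S : ℕ → ℕ → Prop} (hfun : ∀ n m m', S n m → S n m' → m = m')
    {n : ℕ → ℕ} (hn : ∀ t, S (n (t + 1)) (n t)) (s m : ℕ) :
    ∀ t, Chain S t (n (s + t)) m → m = n s
  | 0, h => h.symm
  | t + 1, ⟨u, hu, h⟩ => by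
    have : u = n (s + t) := hfun _ _ _ hu (hn (s + t))
    rw [this] at h
    exact chain_seq_eq hfun hn s m t h

lemma chain_seq_le {S : ℕ → ℕ → Prop} (hlt : ∀ n m, S n m → m < n)
    (hfun : ∀ n m m', S n m → S n m' → m = m')
    {n : ℕ → ℕ} (hn : ∀ t, S (n (t + 1)) (n t)) (d m : ℕ) :
    ∀ t, Chain S (t + d) (n t) m → m + d ≤ n 0
  | 0, h => by
    rw [zero_add] at h
    exact chain_le hlt _ _ _ h
  | t + 1, h => by
    rw [show t + 1 + d = (t + d) + 1 by ring] at h
    obtain ⟨u, hu, h⟩ := h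
    have : u = n t := hfun _ _ _ hu (hn t)
    rw [this] at h
    exact chain_seq_le hlt hfun hn d m t h

lemma exc_two {S : ℕ → ℕ → Prop} (hlt : ∀ n m, S n m → m < n)
    (hfun : ∀ n m m', S n m → S n m' → m = m') {g L : ℕ} (n : ℕ → ℕ)
    (hn : ∀ t, S (n (t + 1)) (n t)) (hL : L ≤ n 0) :
    Exc S g L (n (n 0 + g)) ∧ ¬ Exc S g L (n (n 0 + g + 1)) := by
  constructor
  · refine ⟨n 0 + g, n 0, ?_, rfl, hL⟩
    have := chain_seq hn 0 (n 0 + g)
    rwa [zero_add] at this
  · rintro ⟨t, m, hc, ht, -⟩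
    have hmono : ∀ s, n 0 + s ≤ n s := by
      intro s
      induction s with
      | zero => simp
      | succ s ih =>
        have := hlt _ _ (hn s)
        omega
    rcases le_or_gt t (n 0 + g + 1) with h | h
    · obtain ⟨s, hs⟩ := Nat.exists_eq_add_of_le' h
      rw [hs] at hc
      have e := chain_seq_eq hfun hn s m t hc
      have := hmono s
      rcases Nat.eq_zero_or_pos s with h0 | h0
      · subst h0
        omega
      · omega
    · obtain ⟨d, hd⟩ := Nat.exists_eq_add_of_lt h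
      have : t = (n 0 + g + 1) + (d + 1) := by omega
      rw [this] at hc
      have := chain_seq_le hlt hfun hn (d + 1) m _ hc
      omega

lemma exc_compare_aux {S : ℕ → ℕ → Prop} (hlt : ∀ n m, S n m → m < n) {g g' L' : ℕ}
    (R : ℕ → ℕ → Prop) (hR1 : ∀ u u', R u u' → u ≤ u')
    (hR2 : ∀ u u' v v', R u u' → S u v → S u' v' → L' ≤ v' → R v v')
    (hR3 : ∀ u u' v', R u u' → S u' v' → L' ≤ v' → 2 * v' ≤ u) (hg : g < g') (hgL : g' ≤ L') :
    ∀ t t' u u' m m' d, R u u' → Chain S t u m → Chain S t' u' m' → L' ≤ m' →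
      t + d = m + g → t' + d = m' + g' → False := by
  intro t
  induction t with
  | zero =>
    intro t' u u' m m' d hR hc hc' hL h h'
    have hum : u = m := hc
    subst hum
    cases t' with
    | zero =>
      have hum' : u' = m' := hc'
      subst hum'
      have := hR1 _ _ hR
      omega
    | succ t' =>
      obtain ⟨v', hv', hcv⟩ := hc'
      have h1 := chain_le hlt _ _ _ hcv
      have := hR3 _ _ _ hR hv' (by omega)
      omega
  | succ t ih =>
    intro t' u u' m m' d hR hc hc' hL h h'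
    obtain ⟨v, hv, hcv⟩ := hc
    cases t' with
    | zero =>
      have hum' : u' = m' := hc'
      subst hum'
      have h1 := chain_le hlt _ _ _ hcv
      have h2 := hlt _ _ hv
      have := hR1 _ _ hR
      omega
    | succ t' =>
      obtain ⟨v', hv', hcv'⟩ := hc'
      have h1 := chain_le hlt _ _ _ hcv'
      exact ih t' v v' m m' (d + 1) (hR2 _ _ _ _ hR hv hv' (by omega)) hcv hcv' hL (by omega)
        (by omega)

lemma exc_compare {S : ℕ → ℕ → Prop} (hlt : ∀ n m, S n m → m < n) {g g' L L' : ℕ}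
    (R : ℕ → ℕ → Prop) (hR1 : ∀ u u', R u u' → u ≤ u')
    (hR2 : ∀ u u' v v', R u u' → S u v → S u' v' → L' ≤ v' → R v v')
    (hR3 : ∀ u u' v', R u u' → S u' v' → L' ≤ v' → 2 * v' ≤ u) (hg : g < g') (hgL : g' ≤ L')
    {n n' : ℕ} (h : R n n') (h1 : Exc S g L n) (h2 : Exc S g' L' n') : False := by
  obtain ⟨t, m, hc, ht, -⟩ := h1
  obtain ⟨t', m', hc', ht', hL'⟩ := h2
  exact exc_compare_aux hlt R hR1 hR2 hR3 hg hgL t t' n n' m m' 0 h hc hc' hL' ht ht'


/-! ### The two step relations -/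

/-- The bound used in case B. -/
def K (n : ℕ) : ℕ := 2 * n ^ 3 + 1

/-- The bound used in case A. -/
def H (r f : ℕ) : ℕ := r ^ (f + 2)

/-- Removing the top multiplicative block. -/
def StepM (n m : ℕ) : Prop := ∃ r w, NP r ∧ 1 ≤ m ∧ n = m * r ^ w ∧ K m ≤ r ∧ K r ≤ w

/-- Removing the top additive block. -/
def StepA (r n m : ℕ) : Prop := ∃ f b, ¬ r ∣ f ∧ n = f * r ^ b + m ∧ H r f ≤ b ∧ H r m ≤ b

lemma lt_K (n : ℕ) : n < K n := by
  unfold K
  rcases Nat.eq_zero_or_pos n with h | h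
  · subst h; norm_num
  · nlinarith [Nat.pow_le_pow_right h (show 1 ≤ 3 by norm_num)]

lemma sq_lt_K (n : ℕ) : 2 * n * n < K n := by
  unfold K
  rcases Nat.eq_zero_or_pos n with h | h
  · subst h; norm_num
  · have : n * n ≤ n ^ 3 := by
      calc n * n = n ^ 2 := by ring
        _ ≤ n ^ 3 := Nat.pow_le_pow_right h (by norm_num)
    nlinarith

lemma two_lt_two_pow (n : ℕ) : n + 2 < 2 ^ (n + 2) := Nat.lt_two_pow_self

lemma lt_H {r : ℕ} (hr : 2 ≤ r) (f : ℕ) : f + 2 < H r f :=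
  lt_of_lt_of_le (two_lt_two_pow f) (Nat.pow_le_pow_left hr _)

lemma two_mul_le_two_pow {b : ℕ} (hb : 1 ≤ b) : 2 * b ≤ 2 ^ b := by
  induction b, hb using Nat.le_induction with
  | base => norm_num
  | succ n hn ih => rw [pow_succ]; omega

lemma sq_le_H {r : ℕ} (hr : 2 ≤ r) (f : ℕ) : 2 * f * f ≤ H r f := by
  have h1 : ∀ f : ℕ, 2 * f * f ≤ 2 ^ (f + 2) := by
    intro f
    induction f with
    | zero => norm_num
    | succ n ih =>
      rcases lt_or_ge n 3 with h | h
      · interval_cases n <;> norm_num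
      · calc 2 * (n + 1) * (n + 1) ≤ 2 * (2 * n * n) := by nlinarith
          _ ≤ 2 * 2 ^ (n + 2) := by omega
          _ = 2 ^ (n + 1 + 2) := by ring
  exact (h1 f).trans (Nat.pow_le_pow_left hr _)

lemma stepM_lt (n m : ℕ) (h : StepM n m) : m < n := by
  obtain ⟨r, w, hr, hm, hn, h1, h2⟩ := h
  have hw : w ≠ 0 := by
    have := lt_K r
    omega
  have h3 : 2 ≤ r ^ w := by
    calc 2 ≤ r := hr.1
      _ = r ^ 1 := (pow_one r).symm
      _ ≤ r ^ w := Nat.pow_le_pow_right (by have := hr.1; omega) (by omega)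
  rw [hn]
  nlinarith

lemma stepM_cmp {e e' u u' v v' : ℕ} (he : 1 ≤ e) (hee : e ≤ e') (hv : e' ≤ v')
    (h : e' * u = e * u') (h1 : StepM u v) (h2 : StepM u' v') : e' * v = e * v' := by
  obtain ⟨ρ, w, hρ, hv1, hu, hK1, hK2⟩ := h1
  obtain ⟨σ, z, hσ, hv1', hu', hK1', hK2'⟩ := h2
  have hρ2 := hρ.1
  have hσ2 := hσ.1
  have hmain : (e' * v) * ρ ^ w = (e * v') * σ ^ z := by
    rw [mul_assoc, mul_assoc, ← hu, ← hu', h]
  have b1 : v < ρ := lt_of_lt_of_le (lt_K v) hK1
  have b2 : v' < σ := lt_of_lt_of_le (lt_K v') hK1'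
  have p1 : 1 ≤ e' * v := Nat.mul_pos (by omega) (by omega)
  have p2 : 1 ≤ e * v' := Nat.mul_pos (by omega) (by omega)
  by_cases hρσ : ρ = σ
  · subst hρσ
    have c1 : e' * v < ρ := by
      have hh : e' * v ≤ v' * v := Nat.mul_le_mul_right _ hv
      rcases le_total v v' with h3 | h3
      · have : v' * v ≤ v' * v' := Nat.mul_le_mul_left _ h3
        have := sq_lt_K v'
        nlinarith
      · have : v' * v ≤ v * v := Nat.mul_le_mul_right _ h3
        have := sq_lt_K v
        nlinarith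
    have c2 : e * v' < ρ := by
      have hh : e * v' ≤ v' * v' := Nat.mul_le_mul_right _ (hee.trans hv)
      have := sq_lt_K v'
      nlinarith
    rcases lt_trichotomy w z with hwz | hwz | hwz
    · exfalso
      obtain ⟨d, rfl⟩ := Nat.exists_eq_add_of_lt hwz
      have h4 : e' * v = (e * v') * ρ ^ (d + 1) := by
        apply Nat.eq_of_mul_eq_mul_right (show 0 < ρ ^ w by positivity)
        rw [hmain]
        ring
      have h5 : ρ ≤ ρ ^ (d + 1) := by
        calc ρ = ρ ^ 1 := (pow_one ρ).symm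
          _ ≤ ρ ^ (d + 1) := Nat.pow_le_pow_right (by omega) (by omega)
      nlinarith
    · subst hwz
      exact Nat.eq_of_mul_eq_mul_right (show 0 < ρ ^ w by positivity) hmain
    · exfalso
      obtain ⟨d, rfl⟩ := Nat.exists_eq_add_of_lt hwz
      have h4 : e * v' = (e' * v) * ρ ^ (d + 1) := by
        apply Nat.eq_of_mul_eq_mul_right (show 0 < ρ ^ z by positivity)
        rw [← hmain]
        ring
      have h5 : ρ ≤ ρ ^ (d + 1) := by
        calc ρ = ρ ^ 1 := (pow_one ρ).symm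
          _ ≤ ρ ^ (d + 1) := Nat.pow_le_pow_right (by omega) (by omega)
      nlinarith
  · exfalso
    have k1 := key hρ hσ hρσ p1 p2 hmain
    have k2 := key hσ hρ (Ne.symm hρσ) p2 p1 hmain.symm
    have q1 : e' * v ≤ v' * v := Nat.mul_le_mul_right _ hv
    have q2 : e * v' ≤ v' * v' := Nat.mul_le_mul_right _ (hee.trans hv)
    rcases le_total ρ σ with h3 | h3
    · have m1 : max (e * v') (e' * v) ≤ σ * σ := by
        apply max_le
        · exact q2.trans (Nat.mul_le_mul b2.le b2.le)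
        · exact q1.trans (Nat.mul_le_mul b2.le (b1.le.trans h3))
      have : 2 * max (e * v') (e' * v) * ρ ≤ 2 * (σ * σ) * σ :=
        Nat.mul_le_mul (Nat.mul_le_mul_left _ m1) h3
      have h6 : 2 * (σ * σ) * σ < K σ := by
        have : 2 * (σ * σ) * σ = 2 * σ ^ 3 := by ring
        unfold K
        omega
      omega
    · have m1 : max (e' * v) (e * v') ≤ ρ * ρ := by
        apply max_le
        · exact q1.trans (Nat.mul_le_mul (b2.le.trans h3) b1.le)
        · exact q2.trans (Nat.mul_le_mul (b2.le.trans h3) (b2.le.trans h3))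
      have : 2 * max (e' * v) (e * v') * σ ≤ 2 * (ρ * ρ) * ρ :=
        Nat.mul_le_mul (Nat.mul_le_mul_left _ m1) h3
      have h6 : 2 * (ρ * ρ) * ρ < K ρ := by
        have : 2 * (ρ * ρ) * ρ = 2 * ρ ^ 3 := by ring
        unfold K
        omega
      omega

lemma stepM_fun (n m m' : ℕ) (h : StepM n m) (h' : StepM n m') : m = m' := by
  have hm' : 1 ≤ m' := by
    obtain ⟨r, w, hr, hm, -⟩ := h'
    exact hm
  have := stepM_cmp (e := 1) (e' := 1) le_rfl le_rfl hm' rfl h h'
  omega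

lemma stepM_big {e e' u u' v' : ℕ} (he : 1 ≤ e) (hv : e' ≤ v') (h : e' * u = e * u')
    (h2 : StepM u' v') : 2 * v' ≤ u := by
  obtain ⟨σ, z, hσ, hv1', hu', hK1', hK2'⟩ := h2
  have hσ2 := hσ.1
  have hz : 1 ≤ z := by
    have := lt_K σ
    omega
  have h3 : σ ≤ σ ^ z := by
    calc σ = σ ^ 1 := (pow_one σ).symm
      _ ≤ σ ^ z := Nat.pow_le_pow_right (by omega) hz
  have h4 : 2 * v' * v' < σ := lt_of_lt_of_le (sq_lt_K v') hK1'
  have h5 : v' * (2 * v' * v') ≤ u' := by
    rw [hu']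
    exact Nat.mul_le_mul_left _ (by omega)
  have h6 : u' ≤ e * u' := Nat.le_mul_of_pos_left _ (by omega)
  have h7 : e' * u ≤ v' * u := Nat.mul_le_mul_right _ hv
  have h8 : v' * (2 * v' * v') ≤ v' * u := by omega
  have h9 : 2 * v' * v' ≤ u := Nat.le_of_mul_le_mul_left h8 (by omega)
  nlinarith

lemma stepA_lt {r : ℕ} (hr : 2 ≤ r) (n m : ℕ) (h : StepA r n m) : m < n := by
  obtain ⟨f, b, hf, hn, h1, h2⟩ := h
  have hf0 : f ≠ 0 := by
    rintro rfl
    exact hf (dvd_zero r)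
  have : 0 < f * r ^ b := Nat.mul_pos (by omega) (by positivity)
  omega

lemma cmp_aux {X Y Q v v' d : ℕ} (hv : v < Q) (hv' : v' < Q) (hd : d ≤ v')
    (h : X * Q + v' = Y * Q + (v + d)) : v' = v + d := by
  rcases lt_trichotomy X Y with hXY | hXY | hXY
  · have : (X + 1) * Q ≤ Y * Q := Nat.mul_le_mul_right _ hXY
    nlinarith
  · subst hXY
    omega
  · have : (Y + 1) * Q ≤ X * Q := Nat.mul_le_mul_right _ hXY
    nlinarith

lemma cmp_aux2 {r f b f' b' v v' d : ℕ} (hr : 2 ≤ r) (hf : f + 2 < b) (hf' : 1 ≤ f')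
    (hv : v < b) (hd : d ≤ v') (h : f' * r ^ b' + v' ≤ f * r ^ b + (v + d)) : b' < 2 * b := by
  have h0 : b < r ^ b := Nat.lt_pow_self (by omega)
  have h1 : r ^ b' ≤ f' * r ^ b' := Nat.le_mul_of_pos_left _ hf'
  have h2 : r ^ b' ≤ (f + 1) * r ^ b := by nlinarith
  have h3 : (f + 1) * r ^ b < r ^ b * r ^ b := Nat.mul_lt_mul_of_pos_right (by omega) (by positivity)
  have h4 : r ^ b' < r ^ (2 * b) := by
    rw [two_mul, pow_add]
    omega
  exact (Nat.pow_lt_pow_iff_right (by omega)).mp h4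

lemma stepA_cmp {r u u' v v' d : ℕ} (hr : 2 ≤ r) (hd : d ≤ v') (h : u' = u + d)
    (h1 : StepA r u v) (h2 : StepA r u' v') : v' = v + d := by
  obtain ⟨f, b, hf, hu, hb1, hb2⟩ := h1
  obtain ⟨f', b', hf', hu', hb1', hb2'⟩ := h2
  have e1 := lt_H hr f
  have e2 := lt_H hr v
  have e3 := lt_H hr f'
  have e4 := lt_H hr v'
  have hf0 : f ≠ 0 := by
    rintro rfl
    exact hf (dvd_zero r)
  have hf0' : f' ≠ 0 := by
    rintro rfl
    exact hf' (dvd_zero r)
  have heq : f' * r ^ b' + v' = f * r ^ b + (v + d) := by omega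
  have pb : 2 * b ≤ r ^ b := (two_mul_le_two_pow (by omega)).trans (Nat.pow_le_pow_left hr b)
  have pb' : 2 * b' ≤ r ^ b' := (two_mul_le_two_pow (by omega)).trans (Nat.pow_le_pow_left hr b')
  rcases le_or_gt b b' with hbb | hbb
  · have hlt : b' < 2 * b := cmp_aux2 hr (by omega) (by omega) (by omega) hd heq.le
    obtain ⟨c, rfl⟩ := Nat.exists_eq_add_of_le hbb
    refine cmp_aux (X := f' * r ^ c) (Y := f) (Q := r ^ b) (by omega) (by omega) hd ?_
    rw [← heq, pow_add]
    ring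
  · have hlt : b < 2 * b' := by
      have h0 : b' < r ^ b' := Nat.lt_pow_self (by omega)
      have h3 : r ^ b ≤ f * r ^ b := Nat.le_mul_of_pos_left _ (by omega)
      have h4 : r ^ b ≤ (f' + 1) * r ^ b' := by nlinarith
      have h5 : (f' + 1) * r ^ b' < r ^ b' * r ^ b' :=
        Nat.mul_lt_mul_of_pos_right (by omega) (by positivity)
      have h6 : r ^ b < r ^ (2 * b') := by
        rw [two_mul, pow_add]
        omega
      exact (Nat.pow_lt_pow_iff_right (by omega)).mp h6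
    obtain ⟨c, rfl⟩ := Nat.exists_eq_add_of_le hbb.le
    refine cmp_aux (X := f') (Y := f * r ^ c) (Q := r ^ b') (by omega) (by omega) hd ?_
    rw [heq, pow_add]
    ring

lemma stepA_fun {r : ℕ} (hr : 2 ≤ r) (n m m' : ℕ) (h : StepA r n m) (h' : StepA r n m') :
    m = m' := by
  have := stepA_cmp (d := 0) hr (Nat.zero_le _) rfl h h'
  omega

lemma stepA_big {r u u' v' d : ℕ} (hr : 2 ≤ r) (hd : d ≤ v') (h : u' = u + d)
    (h2 : StepA r u' v') : 2 * v' ≤ u := by
  obtain ⟨f', b', hf', hu', hb1', hb2'⟩ := h2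
  have e4 := lt_H hr v'
  have hf0' : f' ≠ 0 := by
    rintro rfl
    exact hf' (dvd_zero r)
  have pb' : 2 * b' ≤ r ^ b' := (two_mul_le_two_pow (by omega)).trans (Nat.pow_le_pow_left hr b')
  have h3 : r ^ b' ≤ f' * r ^ b' := Nat.le_mul_of_pos_left _ (by omega)
  omega


/-! ### The colouring -/

/-- The basic colour. -/
def D (r E : ℕ) : Prop := K r ≤ E ∧ ¬ Exc StepM r (K r) E

/-- Special exponents. -/
def Spec (r E f w : ℕ) : Prop := ¬ r ∣ f ∧ E = f * r ^ w ∧ H r f ≤ w

/-- Colour of the exponent `E` for the root `r`. -/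
def Col (r E : ℕ) : Prop :=
  (∃ f w, Spec r E f w ∧ (D r (f * r ^ (w % H r f)) ↔ Exc (StepA r) f (H r f) w)) ∨
    ((¬ ∃ f w, Spec r E f w) ∧ D r E)

/-- The colouring of `ℕ`. -/
def col (n : ℕ) : Prop := ∃ r e, NP r ∧ 1 ≤ e ∧ n = r ^ e ∧ Col r e

lemma col_pow {r e : ℕ} (hr : NP r) (he : 1 ≤ e) : col (r ^ e) ↔ Col r e := by
  constructor
  · rintro ⟨s, f, hs, hf, h, hc⟩
    have h1 := np_eq hr hs (by omega) h
    subst h1
    have h2 := Nat.pow_right_injective hr.1 h
    rwa [h2]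
  · intro h
    exact ⟨r, e, hr, he, rfl, h⟩

lemma val_unique {r f w f' w' : ℕ} (hr : 2 ≤ r) (hf : ¬ r ∣ f) (hf' : ¬ r ∣ f')
    (h : f * r ^ w = f' * r ^ w') : f = f' ∧ w = w' := by
  have hpos : ∀ n, 0 < r ^ n := fun n => by positivity
  rcases lt_trichotomy w w' with h1 | h1 | h1
  · exfalso
    obtain ⟨d, rfl⟩ := Nat.exists_eq_add_of_lt h1
    have : f = f' * r ^ (d + 1) := by
      apply Nat.eq_of_mul_eq_mul_right (hpos w)
      rw [h]
      ring
    exact hf (this ▸ Dvd.dvd.mul_left (dvd_pow_self r (by omega)) f')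
  · subst h1
    exact ⟨Nat.eq_of_mul_eq_mul_right (hpos w) h, rfl⟩
  · exfalso
    obtain ⟨d, rfl⟩ := Nat.exists_eq_add_of_lt h1
    have : f' = f * r ^ (d + 1) := by
      apply Nat.eq_of_mul_eq_mul_right (hpos w')
      rw [← h]
      ring
    exact hf' (this ▸ Dvd.dvd.mul_left (dvd_pow_self r (by omega)) f)

lemma Col_spec {r f w : ℕ} (hr : 2 ≤ r) (hf : ¬ r ∣ f) (hw : H r f ≤ w) :
    Col r (f * r ^ w) ↔ (D r (f * r ^ (w % H r f)) ↔ Exc (StepA r) f (H r f) w) := by
  constructor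
  · rintro (⟨f', w', ⟨h1, h2, h3⟩, h4⟩ | ⟨h1, -⟩)
    · obtain ⟨rfl, rfl⟩ := val_unique hr hf h1 h2
      exact h4
    · exact absurd ⟨f, w, hf, rfl, hw⟩ h1
  · intro h
    exact Or.inl ⟨f, w, ⟨hf, rfl, hw⟩, h⟩

lemma Col_nonspec {r E : ℕ} (h : ¬ ∃ f w, Spec r E f w) : Col r E ↔ D r E := by
  constructor
  · rintro (⟨f', w', h1, h4⟩ | ⟨h1, h2⟩)
    · exact absurd ⟨f', w', h1⟩ h
    · exact h2
  · intro h'
    exact Or.inr ⟨h, h'⟩

lemma small_nonspec {r E : ℕ} (hr : 2 ≤ r) (hE : E < K r) : ¬ ∃ f w, Spec r E f w := by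
  rintro ⟨f, w, hf, h1, h2⟩
  have hf0 : f ≠ 0 := by
    rintro rfl
    exact hf (dvd_zero r)
  have h3 : r ^ 3 ≤ w := by
    refine le_trans ?_ h2
    exact Nat.pow_le_pow_right (by omega) (by omega)
  have h4 : 2 ^ (r ^ 3) ≤ E := by
    rw [h1]
    calc 2 ^ (r ^ 3) ≤ r ^ (r ^ 3) := Nat.pow_le_pow_left hr _
      _ ≤ r ^ w := Nat.pow_le_pow_right (by omega) h3
      _ ≤ f * r ^ w := Nat.le_mul_of_pos_left _ (by omega)
  have h5 : 8 ≤ r ^ 3 := by
    calc 8 = 2 ^ 3 := by norm_num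
      _ ≤ r ^ 3 := Nat.pow_le_pow_left hr 3
  have h6 : ∀ n : ℕ, 8 ≤ n → 2 * n + 1 ≤ 2 ^ n := by
    intro n hn
    induction n, hn using Nat.le_induction with
    | base => norm_num
    | succ m hm ih => rw [pow_succ]; omega
  have := h6 _ h5
  unfold K at hE
  omega

/-- In case B with large exponents, nothing is special. -/
lemma nonspec_T1 {r n s e : ℕ} (hr : NP r) (hs : NP s) (hn : 1 ≤ n) (hrs : r < s)
    (h1 : K n ≤ s) (h2 : K s ≤ e) : ¬ ∃ f w, Spec r (n * s ^ e) f w := by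
  rintro ⟨f, w, hf, h3, h4⟩
  have hr2 := hr.1
  have hf0 : f ≠ 0 := by
    rintro rfl
    exact hf (dvd_zero r)
  have k1 := key hs hr (by omega) hn (by omega : 1 ≤ f) h3
  have k2 := key hr hs (by omega) (by omega : 1 ≤ f) hn h3.symm
  have hns : n ≤ s := ((lt_K n).trans_le h1).le
  have hH := sq_le_H hr2 f
  have hKs := sq_lt_K s
  rcases le_or_gt f s with h5 | h5
  · have m1 : max n f ≤ s := max_le hns h5
    have : 2 * max n f * r ≤ 2 * s * s := Nat.mul_le_mul (Nat.mul_le_mul_left _ m1) hrs.le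
    omega
  · have m1 : max f n ≤ f := max_le le_rfl (by omega)
    have m2 : 2 * max f n * s ≤ 2 * f * s := Nat.mul_le_mul_right _ (Nat.mul_le_mul_left _ m1)
    have m3 : 2 * f * s < 2 * f * f := Nat.mul_lt_mul_of_pos_left h5 (by omega)
    omega

/-- In case B, at most one root makes the exponent special. -/
lemma nonspec_T0 {r r' e e' X : ℕ} (hr : NP r) (hr' : NP r') (hrr : r ≠ r') (he : 1 ≤ e)
    (he' : 1 ≤ e')
    (hX : (e * e' * r * r') * (r * r') ^ (2 * (e * e' * r * r') * (e * e' * r * r')) < X) :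
    (¬ ∃ f w, Spec r (e * X) f w) ∨ (¬ ∃ f w, Spec r' (e' * X) f w) := by
  by_contra hcon
  push Not at hcon
  obtain ⟨⟨f, w, hf, h1, h2⟩, ⟨f', w', hf', h1', h2'⟩⟩ := hcon
  have hr2 := hr.1
  have hr2' := hr'.1
  have hf0 : f ≠ 0 := by
    rintro rfl
    exact hf (dvd_zero r)
  have hf0' : f' ≠ 0 := by
    rintro rfl
    exact hf' (dvd_zero r')
  have hmain : (e' * f) * r ^ w = (e * f') * r' ^ w' := by
    rw [mul_assoc, mul_assoc, ← h1, ← h1']
    ring
  have k1 := key hr hr' hrr (Nat.mul_pos he' (by omega)) (Nat.mul_pos he (by omega)) hmain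
  have k2 := key hr' hr (Ne.symm hrr) (Nat.mul_pos he (by omega)) (Nat.mul_pos he' (by omega))
    hmain.symm
  have hH := sq_le_H hr2 f
  have hH' := sq_le_H hr2' f'
  have b1 : e ≤ e * e' := Nat.le_mul_of_pos_right _ he'
  have b2 : e' ≤ e * e' := Nat.le_mul_of_pos_left _ he
  have b3 : e * e' * r' ≤ e * e' * r * r' :=
    Nat.mul_le_mul_right r' (Nat.le_mul_of_pos_right (e * e') (by omega))
  have b4 : e * e' * r ≤ e * e' * r * r' := Nat.le_mul_of_pos_right _ (by omega)
  set M := e * e' * r * r' with hM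
  have hMpos : 0 < M := by positivity
  -- bound both
  have hw : w ≤ 2 * M * max f f' := by
    calc w ≤ 2 * max (e' * f) (e * f') * r' := k1
      _ ≤ 2 * ((e * e') * max f f') * r' := by
          apply Nat.mul_le_mul_right
          apply Nat.mul_le_mul_left
          apply max_le
          · exact Nat.mul_le_mul b2 (le_max_left _ _)
          · exact Nat.mul_le_mul b1 (le_max_right _ _)
      _ = 2 * (e * e' * r') * max f f' := by ring
      _ ≤ 2 * M * max f f' := Nat.mul_le_mul_right _ (Nat.mul_le_mul_left _ b3)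
  have hw' : w' ≤ 2 * M * max f f' := by
    calc w' ≤ 2 * max (e * f') (e' * f) * r := k2
      _ ≤ 2 * ((e * e') * max f f') * r := by
          apply Nat.mul_le_mul_right
          apply Nat.mul_le_mul_left
          apply max_le
          · exact Nat.mul_le_mul b1 (le_max_right _ _)
          · exact Nat.mul_le_mul b2 (le_max_left _ _)
      _ = 2 * (e * e' * r) * max f f' := by ring
      _ ≤ 2 * M * max f f' := Nat.mul_le_mul_right _ (Nat.mul_le_mul_left _ b4)
  have hF : max f f' ≤ M := by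
    rcases le_total f f' with h | h
    · rw [max_eq_right h] at hw' ⊢
      have : 2 * f' * f' ≤ 2 * M * f' := by omega
      have h5 := Nat.le_of_mul_le_mul_right this (by omega)
      omega
    · rw [max_eq_left h] at hw ⊢
      have : 2 * f * f ≤ 2 * M * f := by omega
      have h5 := Nat.le_of_mul_le_mul_right this (by omega)
      omega
  have hwM : w ≤ 2 * M * M := hw.trans (Nat.mul_le_mul_left _ hF)
  have hXle : X ≤ M * (r * r') ^ (2 * M * M) := by
    calc X ≤ e * X := Nat.le_mul_of_pos_left _ he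
      _ = f * r ^ w := h1
      _ ≤ M * (r * r') ^ (2 * M * M) := by
          apply Nat.mul_le_mul ((le_max_left _ _).trans hF)
          calc r ^ w ≤ (r * r') ^ w := Nat.pow_le_pow_left (Nat.le_mul_of_pos_right _ (by omega)) _
            _ ≤ (r * r') ^ (2 * M * M) := Nat.pow_le_pow_right (by positivity) hwM
  omega


/-! ### The cases -/

lemma build (J : Set ℕ) (Q : Finset ℕ → ℕ → Prop)
    (hQ : ∀ s : Finset ℕ, ∃ k ∈ J, (∀ j ∈ s, j < k) ∧ Q s k) :
    ∃ S : ℕ → Finset ℕ, S 0 = ∅ ∧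
      ∀ t, ∃ k ∈ J, (∀ j ∈ S t, j < k) ∧ Q (S t) k ∧ S (t + 1) = insert k (S t) := by
  choose pick h1 h2 h3 using hQ
  refine ⟨fun t => Nat.rec ∅ (fun _ s => insert (pick s) s) t, rfl, fun t => ?_⟩
  exact ⟨pick _, h1 _, h2 _, h3 _, rfl⟩

/-- Case A2: same root, special exponents. -/
lemma caseA2 {r : ℕ} (hr : 2 ≤ r) {E : ℕ → ℕ} {P : Prop} {J : Set ℕ} (hJ : J.Infinite)
    (hbig : ∀ j ∈ J, j ≤ r ^ (E j)) (hspec : ∀ j ∈ J, ∃ f w, Spec r (E j) f w)
    (hcol : ∀ i ∈ J, ∀ s : Finset ℕ, (∀ j ∈ s, j ∈ J ∧ i < j) →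
      (Col r (E i * r ^ (∑ j ∈ s, E j)) ↔ P)) : False := by
  have hspec' : ∀ j, ∃ f w, j ∈ J → Spec r (E j) f w := by
    intro j
    by_cases hj : j ∈ J
    · obtain ⟨f, w, h⟩ := hspec j hj
      exact ⟨f, w, fun _ => h⟩
    · exact ⟨0, 0, fun h => absurd h hj⟩
  choose f w hfw using hspec'
  obtain ⟨i, hi⟩ := hJ.nonempty
  obtain ⟨hif, hiE, hiH⟩ := hfw i hi
  -- unboundedness of `w`
  have hunb : ∀ B, ∃ k ∈ J, B < k ∧ B ≤ w k := by
    intro B
    obtain ⟨k, hk, hkB⟩ := hJ.exists_gt (max B (r ^ (B * r ^ B)))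
    obtain ⟨h1, h2, h3⟩ := hfw k hk
    refine ⟨k, hk, (le_max_left _ _).trans_lt hkB, ?_⟩
    by_contra hlt
    push Not at hlt
    have h4 : r ^ (B * r ^ B) < r ^ (E k) :=
      ((le_max_right _ _).trans_lt hkB).trans_le (hbig k hk)
    have h5 : B * r ^ B < E k := (Nat.pow_lt_pow_iff_right (by omega)).mp h4
    have h6 : f k ≤ B := by
      have := lt_H hr (f k)
      omega
    have h7 : E k ≤ B * r ^ B := by
      rw [h2]
      exact Nat.mul_le_mul h6 (Nat.pow_le_pow_right (by omega) hlt.le)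
    omega
  obtain ⟨S, hS0, hS⟩ := build J (fun s k => i < k ∧ f i + 2 ≤ w k ∧
      H r (w i + ∑ j ∈ s, E j) ≤ w k) (by
    intro s
    obtain ⟨k, hk, h1, h2⟩ := hunb (i + (f i + 2) + H r (w i + ∑ j ∈ s, E j) + ∑ j ∈ s, j)
    refine ⟨k, hk, ?_, ?_, ?_, ?_⟩
    · intro j hj
      have : j ≤ ∑ j ∈ s, j := Finset.single_le_sum (f := fun j => j) (fun j _ => Nat.zero_le j) hj
      omega
    · omega
    · omega
    · omega)
  have hSJ : ∀ t, ∀ j ∈ S t, j ∈ J ∧ i < j ∧ f i + 2 ≤ w j := by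
    intro t
    induction t with
    | zero => simp [hS0]
    | succ t ih =>
      obtain ⟨k, hk, h1, ⟨h2, h3, h4⟩, h5⟩ := hS t
      intro j hj
      rw [h5, Finset.mem_insert] at hj
      rcases hj with rfl | hj
      · exact ⟨hk, h2, h3⟩
      · exact ih j hj
  set n : ℕ → ℕ := fun t => w i + ∑ j ∈ S t, E j with hn
  have hn0 : n 0 = w i := by simp [hn, hS0]
  have hstep : ∀ t, StepA r (n (t + 1)) (n t) := by
    intro t
    obtain ⟨k, hk, h1, ⟨h2, h3, h4⟩, h5⟩ := hS t
    obtain ⟨g1, g2, g3⟩ := hfw k hk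
    refine ⟨f k, w k, g1, ?_, g3, h4⟩
    have hkS : k ∉ S t := fun hmem => lt_irrefl k (h1 k hmem)
    simp only [hn, h5, Finset.sum_insert hkS, ← g2]
    ring
  obtain ⟨x1, x2⟩ := exc_two (stepA_lt hr) (stepA_fun hr) (g := f i) (L := H r (f i)) n hstep
    (by rw [hn0]; exact hiH)
  have hmod : ∀ t, n t % H r (f i) = w i % H r (f i) := by
    intro t
    have hdvd : H r (f i) ∣ ∑ j ∈ S t, E j := by
      apply Finset.dvd_sum
      intro j hj
      obtain ⟨g1, g2, g3⟩ := hSJ t j hj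
      rw [(hfw j g1).2.1]
      exact Dvd.dvd.mul_left (pow_dvd_pow r g3) _
    obtain ⟨c, hc⟩ := hdvd
    simp only [hn, hc, Nat.add_mul_mod_self_left]
  have hc : ∀ t, (D r (f i * r ^ (w i % H r (f i))) ↔ Exc (StepA r) (f i) (H r (f i)) (n t)) ↔ P := by
    intro t
    have h1 := hcol i hi (S t) (fun j hj => ⟨(hSJ t j hj).1, (hSJ t j hj).2.1⟩)
    have h2 : E i * r ^ (∑ j ∈ S t, E j) = f i * r ^ (n t) := by
      rw [hiE, mul_assoc, ← pow_add]
    rw [h2, Col_spec hr hif (by simp only [hn]; omega), hmod t] at h1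
    exact h1
  have c1 := hc (n 0 + f i)
  have c2 := hc (n 0 + f i + 1)
  tauto

/-- Case A1: same root, non-special exponents. -/
lemma caseA1 {r : ℕ} (hr : 2 ≤ r) {E : ℕ → ℕ} {P : Prop} {J : Set ℕ} (hJ : J.Infinite)
    (hbig : ∀ j ∈ J, j ≤ r ^ (E j)) (hE : ∀ j ∈ J, 1 ≤ E j)
    (hnon : ∀ j ∈ J, ¬ ∃ f w, Spec r (E j) f w)
    (hcol : ∀ i ∈ J, ∀ s : Finset ℕ, (∀ j ∈ s, j ∈ J ∧ i < j) →
      (Col r (E i * r ^ (∑ j ∈ s, E j)) ↔ P)) : False := by
  have hdec : ∀ j, ∃ f a, j ∈ J → (¬ r ∣ f ∧ E j = f * r ^ a ∧ a < H r f) := by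
    intro j
    by_cases hj : j ∈ J
    · obtain ⟨a, f, h1, h2⟩ := Nat.exists_eq_pow_mul_and_not_dvd (n := E j)
        (by have := hE j hj; omega) r (by omega)
      refine ⟨f, a, fun _ => ⟨h1, by rw [h2]; ring, ?_⟩⟩
      by_contra hlt
      push Not at hlt
      exact hnon j hj ⟨f, a, h1, by rw [h2]; ring, hlt⟩
    · exact ⟨0, 0, fun h => absurd h hj⟩
  choose f a hfa using hdec
  -- choose `i` with `a i` minimal
  have hex : ∃ m, ∃ i ∈ J, a i = m := by
    obtain ⟨i, hi⟩ := hJ.nonempty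
    exact ⟨a i, i, hi, rfl⟩
  classical
  obtain ⟨i, hi, him⟩ := Nat.find_spec hex
  have hmin : ∀ j ∈ J, a i ≤ a j := by
    intro j hj
    rw [him]
    exact Nat.find_min' hex ⟨j, hj, rfl⟩
  -- choose `k > i` with `f k > f i`
  have hunb : ∃ k ∈ J, i < k ∧ f i < f k := by
    set F := f i
    obtain ⟨k, hk, hkB⟩ := hJ.exists_gt (max i (r ^ (F * r ^ (H r F))))
    obtain ⟨h1, h2, h3⟩ := hfa k hk
    refine ⟨k, hk, (le_max_left _ _).trans_lt hkB, ?_⟩
    by_contra hlt
    push Not at hlt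
    have h4 : r ^ (F * r ^ (H r F)) < r ^ (E k) :=
      ((le_max_right _ _).trans_lt hkB).trans_le (hbig k hk)
    have h5 : F * r ^ (H r F) < E k := (Nat.pow_lt_pow_iff_right (by omega)).mp h4
    have h6 : a k ≤ H r F :=
      h3.le.trans (Nat.pow_le_pow_right (by omega) (by omega))
    have h7 : E k ≤ F * r ^ (H r F) := by
      rw [h2]
      exact Nat.mul_le_mul hlt (Nat.pow_le_pow_right (by omega) h6)
    omega
  obtain ⟨k, hk, hik, hfik⟩ := hunb
  obtain ⟨hi1, hi2, hi3⟩ := hfa i hi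
  obtain ⟨hk1, hk2, hk3⟩ := hfa k hk
  have hHd : H r (f i) ∣ H r (f k) := pow_dvd_pow r (by omega)
  have hHpos : 0 < H r (f k) := by unfold H; positivity
  have hHpos' : 0 < H r (f i) := by unfold H; positivity
  -- a finite set with sum divisible by `H r (f k)`
  have hsum : ∃ s : Finset ℕ, (∀ j ∈ s, j ∈ J ∧ k < j) ∧ s.Nonempty ∧
      H r (f k) ∣ ∑ j ∈ s, E j := by
    have hinf : (J \ Set.Iic k).Infinite := hJ.sdiff (Set.finite_Iic k)
    obtain ⟨s0, hs0, hcard⟩ := hinf.exists_subset_card_eq (2 * H r (f k) - 1)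
    obtain ⟨s, hs, hsc, hsd⟩ := Int.erdos_ginzburg_ziv (n := H r (f k)) (s := s0)
      (fun j => (E j : ℤ)) (by omega)
    refine ⟨s, ?_, ?_, ?_⟩
    · intro j hj
      have := hs0 (hs hj)
      simp only [Set.mem_sdiff, Set.mem_Iic, not_le] at this
      exact this
    · rw [← Finset.card_pos]
      omega
    · exact_mod_cast hsd
  obtain ⟨s, hs, hsne, hsd⟩ := hsum
  have hspos : 0 < ∑ j ∈ s, E j := by
    apply Finset.sum_pos _ hsne
    intro j hj
    have := hE j (hs j hj).1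
    omega
  set σ := ∑ j ∈ s, E j with hσ
  have hsdi : H r (f i) ∣ σ := hHd.trans hsd
  have hge : H r (f k) ≤ σ := Nat.le_of_dvd hspos hsd
  have hgei : H r (f i) ≤ σ := Nat.le_of_dvd hspos hsdi
  have hmi : (a i + σ) % H r (f i) = a i := by
    obtain ⟨c, hc⟩ := hsdi
    rw [hc, Nat.add_mul_mod_self_left, Nat.mod_eq_of_lt hi3]
  have hmk : (a k + σ) % H r (f k) = a k := by
    obtain ⟨c, hc⟩ := hsd
    rw [hc, Nat.add_mul_mod_self_left, Nat.mod_eq_of_lt hk3]
  have ci := hcol i hi s (fun j hj => ⟨(hs j hj).1, hik.trans (hs j hj).2⟩)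
  have ck := hcol k hk s hs
  have ci0 := hcol i hi ∅ (by simp)
  have ck0 := hcol k hk ∅ (by simp)
  rw [Finset.sum_empty, pow_zero, mul_one, Col_nonspec (hnon i hi)] at ci0
  rw [Finset.sum_empty, pow_zero, mul_one, Col_nonspec (hnon k hk)] at ck0
  rw [← hσ, hi2, mul_assoc, ← pow_add, Col_spec hr hi1 (by omega), hmi, ← hi2] at ci
  rw [← hσ, hk2, mul_assoc, ← pow_add, Col_spec hr hk1 (by omega), hmk, ← hk2] at ck
  have ei : Exc (StepA r) (f i) (H r (f i)) (a i + σ) := by tauto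
  have ek : Exc (StepA r) (f k) (H r (f k)) (a k + σ) := by tauto
  have hle := hmin k hk
  have hfH := lt_H hr (f k)
  refine exc_compare (stepA_lt hr) (fun u u' => u' = u + (a k - a i)) ?_ ?_ ?_ hfik (by omega)
    (show a k + σ = a i + σ + (a k - a i) by omega) ei ek
  · intro u u' h
    omega
  · intro u u' v v' h h1 h2 h3
    exact stepA_cmp hr (by omega) h h1 h2
  · intro u u' v' h h1 h2
    exact stepA_big hr (by omega) h h1


/-- Case B1: different roots, large exponents. -/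
lemma caseB1 {R E x : ℕ → ℕ} {P : Prop} {J : Set ℕ}
    (hR : ∀ j ∈ J, NP (R j)) (hx : ∀ j ∈ J, x j = R j ^ E j) (hEK : ∀ j ∈ J, K (R j) ≤ E j)
    (hne : J.Nonempty) (hunb : ∀ B, ∃ k ∈ J, B < k ∧ B ≤ R k)
    (hcol : ∀ i ∈ J, ∀ s : Finset ℕ, (∀ j ∈ s, j ∈ J ∧ i < j) →
      (Col (R i) (E i * ∏ j ∈ s, x j) ↔ P)) : False := by
  obtain ⟨i, hi⟩ := hne
  have hri := hR i hi
  have hri2 := hri.1
  obtain ⟨S, hS0, hS⟩ := build J (fun s k => i < k ∧ K (E i * ∏ j ∈ s, x j) ≤ R k ∧ R i < R k) (by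
    intro s
    obtain ⟨k, hk, h1, h2⟩ := hunb (i + (R i + 1) + K (E i * ∏ j ∈ s, x j) + ∑ j ∈ s, j)
    refine ⟨k, hk, ?_, ?_, ?_, ?_⟩
    · intro j hj
      have : j ≤ ∑ j ∈ s, j := Finset.single_le_sum (f := fun j => j) (fun j _ => Nat.zero_le j) hj
      omega
    · omega
    · omega
    · omega)
  have hSJ : ∀ t, ∀ j ∈ S t, j ∈ J ∧ i < j := by
    intro t
    induction t with
    | zero => simp [hS0]
    | succ t ih =>
      obtain ⟨k, hk, h1, ⟨h2, h3, h4⟩, h5⟩ := hS t
      intro j hj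
      rw [h5, Finset.mem_insert] at hj
      rcases hj with rfl | hj
      · exact ⟨hk, h2⟩
      · exact ih j hj
  have hEi : 1 ≤ E i := by
    have := hEK i hi
    have := lt_K (R i)
    omega
  set n : ℕ → ℕ := fun t => E i * ∏ j ∈ S t, x j with hn
  have hn0 : n 0 = E i := by simp [hn, hS0]
  have hpos : ∀ t, 1 ≤ n t := by
    intro t
    have : 0 < ∏ j ∈ S t, x j := by
      apply Finset.prod_pos
      intro j hj
      rw [hx j (hSJ t j hj).1]
      have := (hR j (hSJ t j hj).1).1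
      positivity
    exact Nat.mul_pos hEi this
  have hins : ∀ t, ∃ k ∈ J, K (n t) ≤ R k ∧ R i < R k ∧ n (t + 1) = n t * R k ^ E k := by
    intro t
    obtain ⟨k, hk, h1, ⟨h2, h3, h4⟩, h5⟩ := hS t
    refine ⟨k, hk, h3, h4, ?_⟩
    have hkS : k ∉ S t := fun hmem => lt_irrefl k (h1 k hmem)
    simp only [hn, h5, Finset.prod_insert hkS, hx k hk]
    ring
  have hstep : ∀ t, StepM (n (t + 1)) (n t) := by
    intro t
    obtain ⟨k, hk, h1, h2, h3⟩ := hins t
    exact ⟨R k, E k, hR k hk, hpos t, h3, h1, hEK k hk⟩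
  obtain ⟨x1, x2⟩ := exc_two stepM_lt stepM_fun (g := R i) (L := K (R i)) n hstep
    (by rw [hn0]; exact hEK i hi)
  have hge : ∀ t, E i ≤ n t := by
    intro t
    induction t with
    | zero => rw [hn0]
    | succ t ih => exact ih.trans (stepM_lt _ _ (hstep t)).le
  have hc : ∀ t, D (R i) (n (t + 1)) ↔ P := by
    intro t
    obtain ⟨k, hk, h1, h2, h3⟩ := hins t
    have h4 : ¬ ∃ f w, Spec (R i) (n (t + 1)) f w := by
      rw [h3]
      exact nonspec_T1 hri (hR k hk) (hpos t) h2 h1 (hEK k hk)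
    rw [← Col_nonspec h4]
    exact hcol i hi (S (t + 1)) (hSJ (t + 1))
  have c1 := hc (n 0 + R i - 1)
  have c2 := hc (n 0 + R i)
  rw [show n 0 + R i - 1 + 1 = n 0 + R i by omega] at c1
  have d1 : ¬ D (R i) (n (n 0 + R i)) := fun h => h.2 x1
  have d2 : D (R i) (n (n 0 + R i + 1)) := ⟨(hEK i hi).trans (hge _), x2⟩
  tauto

/-- Two indices with small exponents, both exceptional: impossible. -/
lemma small_pair {r r' e e' X : ℕ} (he : 1 ≤ e) (hee : e ≤ e')
    (hrr : r < r') (he' : e' < K r') (h1 : Exc StepM r (K r) (e * X))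
    (h2 : Exc StepM r' (K r') (e' * X)) : False := by
  refine exc_compare stepM_lt (fun u u' => e' * u = e * u') ?_ ?_ ?_ hrr (lt_K r').le
    (show e' * (e * X) = e * (e' * X) by ring) h1 h2
  · intro u u' h
    have : e * u' ≤ e' * u' := Nat.mul_le_mul_right _ hee
    have h3 : e' * u ≤ e' * u' := by omega
    exact Nat.le_of_mul_le_mul_left h3 (by omega)
  · intro u u' v v' h h1 h2 h3
    exact stepM_cmp he hee (by omega) h h1 h2
  · intro u u' v' h h1 h2
    exact stepM_big he (by omega) h h1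

/-- Case B0: different roots, small exponents. -/
lemma caseB0 {R E x : ℕ → ℕ} {P : Prop} {J : Set ℕ} (hJ : J.Infinite) (hJx : ∀ j ∈ J, j ≤ x j)
    (hR : ∀ j ∈ J, NP (R j)) (hE1 : ∀ j ∈ J, 1 ≤ E j) (hEK : ∀ j ∈ J, E j < K (R j))
    (hunb : ∀ B, ∃ b, ∀ k ∈ J, b ≤ k → B < R k)
    (hcol : ∀ i ∈ J, ∀ s : Finset ℕ, (∀ j ∈ s, j ∈ J ∧ i < j) →
      (Col (R i) (E i * ∏ j ∈ s, x j) ↔ P)) : False := by
  classical
  -- minimal exponents beyond a bound
  have hmin : ∀ B, ∃ i ∈ J, B ≤ i ∧ ∀ j ∈ J, B ≤ j → E i ≤ E j := by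
    intro B
    have hex : ∃ m, ∃ i ∈ J, B ≤ i ∧ E i = m := by
      obtain ⟨k, hk, hkB⟩ := hJ.exists_gt B
      exact ⟨E k, k, hk, hkB.le, rfl⟩
    obtain ⟨i, hi, hB, him⟩ := Nat.find_spec hex
    refine ⟨i, hi, hB, fun j hj hBj => ?_⟩
    rw [him]
    exact Nat.find_min' hex ⟨j, hj, hBj, rfl⟩
  obtain ⟨i1, hi1, -, hm1⟩ := hmin 0
  obtain ⟨b1, hb1⟩ := hunb (R i1)
  obtain ⟨i2, hi2, hB2, hm2⟩ := hmin (max b1 (i1 + 1))
  obtain ⟨b2, hb2⟩ := hunb (R i2)
  obtain ⟨i3, hi3, hB3, hm3⟩ := hmin (max (max b2 (i2 + 1)) (max b1 (i1 + 1)))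
  have hlt12 : i1 < i2 := by
    have := (le_max_right b1 (i1 + 1)).trans hB2
    omega
  have hlt23 : i2 < i3 := by
    have := ((le_max_right b2 (i2 + 1)).trans (le_max_left _ _)).trans hB3
    omega
  have hR12 : R i1 < R i2 := hb1 i2 hi2 ((le_max_left _ _).trans hB2)
  have hR23 : R i2 < R i3 := hb2 i3 hi3 (((le_max_left _ _).trans (le_max_left _ _)).trans hB3)
  have hE12 : E i1 ≤ E i2 := hm1 i2 hi2 (Nat.zero_le _)
  have hE23 : E i2 ≤ E i3 := hm2 i3 hi3 ((le_max_right _ _).trans hB3)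
  -- the colour is false
  have hP : ¬ P := by
    have h1 := hcol i1 hi1 ∅ (by simp)
    rw [Finset.prod_empty, mul_one, Col_nonspec (small_nonspec (hR i1 hi1).1 (hEK i1 hi1))] at h1
    have h2 : ¬ D (R i1) (E i1) := fun h => absurd h.1 (by have := hEK i1 hi1; omega)
    tauto
  -- choose a large index
  have hbd : ∀ e e' r r' : ℕ, ∃ B, ∀ k ∈ J, B ≤ k →
      (e * e' * r * r') * (r * r') ^ (2 * (e * e' * r * r') * (e * e' * r * r')) < x k := by
    intro e e' r r'
    refine ⟨(e * e' * r * r') * (r * r') ^ (2 * (e * e' * r * r') * (e * e' * r * r')) + 1, ?_⟩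
    intro k hk hB
    have := hJx k hk
    omega
  obtain ⟨B12, hB12⟩ := hbd (E i1) (E i2) (R i1) (R i2)
  obtain ⟨B13, hB13⟩ := hbd (E i1) (E i3) (R i1) (R i3)
  obtain ⟨B23, hB23⟩ := hbd (E i2) (E i3) (R i2) (R i3)
  obtain ⟨k, hk, hkB⟩ := hJ.exists_gt (B12 + B13 + B23 + i3 + K (R i3) + K (R i2) + K (R i1))
  have s12 := nonspec_T0 (hR i1 hi1) (hR i2 hi2) hR12.ne (hE1 i1 hi1) (hE1 i2 hi2)
    (hB12 k hk (by omega))
  have s13 := nonspec_T0 (hR i1 hi1) (hR i3 hi3) (hR12.trans hR23).ne (hE1 i1 hi1) (hE1 i3 hi3)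
    (hB13 k hk (by omega))
  have s23 := nonspec_T0 (hR i2 hi2) (hR i3 hi3) hR23.ne (hE1 i2 hi2) (hE1 i3 hi3)
    (hB23 k hk (by omega))
  have hxk := hJx k hk
  have exc : ∀ i ∈ J, i < k → K (R i) ≤ k → (¬ ∃ f w, Spec (R i) (E i * x k) f w) →
      Exc StepM (R i) (K (R i)) (E i * x k) := by
    intro i hi hik hKk hns
    have h1 := hcol i hi {k} (by simp [hk, hik])
    rw [Finset.prod_singleton, Col_nonspec hns] at h1
    have h2 : ¬ D (R i) (E i * x k) := by tauto
    have h3 : K (R i) ≤ E i * x k := by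
      calc K (R i) ≤ k := hKk
        _ ≤ x k := hxk
        _ ≤ E i * x k := Nat.le_mul_of_pos_left _ (hE1 i hi)
    by_contra h4
    exact h2 ⟨h3, h4⟩
  have x1 := exc i1 hi1 (by omega) (by omega)
  have x2 := exc i2 hi2 (by omega) (by omega)
  have x3 := exc i3 hi3 (by omega) (by omega)
  rcases s12 with a | a
  · rcases s23 with b | b
    · exact small_pair (hE1 i1 hi1) hE12 hR12 (hEK i2 hi2) (x1 a) (x2 b)
    · exact small_pair (hE1 i1 hi1) (hE12.trans hE23) (hR12.trans hR23) (hEK i3 hi3) (x1 a) (x3 b)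
  · rcases s13 with b | b
    · exact small_pair (hE1 i1 hi1) hE12 hR12 (hEK i2 hi2) (x1 b) (x2 a)
    · exact small_pair (hE1 i2 hi2) hE23 hR23 (hEK i3 hi3) (x2 a) (x3 b)

/-! ### Assembling -/

/-- No sequence is monochromatic. -/
lemma no_mono (x : ℕ → ℕ) (hx : StrictMono x) (P : Prop)
    (h : ∀ i (s : Finset ℕ), 2 ≤ i → (∀ j ∈ s, i < j) → (col (x i ^ ∏ j ∈ s, x j) ↔ P)) :
    False := by
  have hroot : ∀ j, ∃ r e, 2 ≤ j → (NP r ∧ 1 ≤ e ∧ x j = r ^ e) := by
    intro j
    by_cases hj : 2 ≤ j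
    · obtain ⟨r, e, h1⟩ := exists_root (x j) (hj.trans (hx.id_le j))
      exact ⟨r, e, fun _ => h1⟩
    · exact ⟨0, 0, fun h => absurd h hj⟩
  choose R E hRE using hroot
  have hcol : ∀ i (s : Finset ℕ), 2 ≤ i → (∀ j ∈ s, i < j) →
      (Col (R i) (E i * ∏ j ∈ s, x j) ↔ P) := by
    intro i s hi hs
    obtain ⟨h1, h2, h3⟩ := hRE i hi
    rw [← h i s hi hs, h3, ← pow_mul, col_pow h1]
    apply Nat.mul_pos h2
    apply Finset.prod_pos
    intro j hj
    have h4 := hs j hj
    have h5 : j ≤ x j := hx.id_le j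
    omega
  by_cases hA : ∃ r, {j | 2 ≤ j ∧ R j = r}.Infinite
  · obtain ⟨r, hr⟩ := hA
    have hNP : NP r := by
      obtain ⟨j, hj1, hj2⟩ := hr.nonempty
      rw [← hj2]
      exact (hRE j hj1).1
    have hcolA : ∀ J : Set ℕ, J ⊆ {j | 2 ≤ j ∧ R j = r} → ∀ i ∈ J, ∀ s : Finset ℕ,
        (∀ j ∈ s, j ∈ J ∧ i < j) → (Col r (E i * r ^ (∑ j ∈ s, E j)) ↔ P) := by
      intro J hJ i hi s hs
      have h1 := hcol i s (hJ hi).1 (fun j hj => (hs j hj).2)
      have h2 : ∏ j ∈ s, x j = r ^ (∑ j ∈ s, E j) := by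
        rw [← Finset.prod_pow_eq_pow_sum]
        apply Finset.prod_congr rfl
        intro j hj
        have h3 := hJ (hs j hj).1
        rw [(hRE j h3.1).2.2, h3.2]
      rwa [(hJ hi).2, h2] at h1
    have hbigA : ∀ j ∈ {j | 2 ≤ j ∧ R j = r}, j ≤ r ^ E j := by
      intro j hj
      have h3 := (hRE j hj.1).2.2
      rw [hj.2] at h3
      rw [← h3]
      exact hx.id_le j
    by_cases hsp : {j | (2 ≤ j ∧ R j = r) ∧ ∃ f w, Spec r (E j) f w}.Infinite
    · exact caseA2 hNP.1 hsp (fun j hj => hbigA j hj.1) (fun j hj => hj.2)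
        (hcolA _ (fun j hj => hj.1))
    · have hnsp : {j | (2 ≤ j ∧ R j = r) ∧ ¬ ∃ f w, Spec r (E j) f w}.Infinite := by
        intro hfin
        apply hr
        refine ((Set.not_infinite.mp hsp).union hfin).subset ?_
        intro j hj
        by_cases h1 : ∃ f w, Spec r (E j) f w
        · exact Or.inl ⟨hj, h1⟩
        · exact Or.inr ⟨hj, h1⟩
      exact caseA1 hNP.1 hnsp (fun j hj => hbigA j hj.1) (fun j hj => (hRE j hj.1.1).2.1)
        (fun j hj => hj.2) (hcolA _ (fun j hj => hj.1))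
  · push Not at hA
    have hunb : ∀ B, ∃ b, ∀ k, 2 ≤ k → b ≤ k → B < R k := by
      intro B
      have hfin : (⋃ r ∈ Set.Iic B, {j | 2 ≤ j ∧ R j = r}).Finite :=
        (Set.finite_Iic B).biUnion (fun r _ => hA r)
      obtain ⟨b, hb⟩ := hfin.bddAbove
      refine ⟨b + 1, fun k hk hbk => ?_⟩
      by_contra hlt
      push Not at hlt
      have : k ∈ (⋃ r ∈ Set.Iic B, {j | 2 ≤ j ∧ R j = r}) := by
        simp only [Set.mem_iUnion]
        exact ⟨R k, hlt, hk, rfl⟩
      have := hb this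
      omega
    by_cases hT : {j | 2 ≤ j ∧ K (R j) ≤ E j}.Infinite
    · refine caseB1 (R := R) (E := E) (x := x) (P := P) (fun j hj => (hRE j hj.1).1)
        (fun j hj => (hRE j hj.1).2.2) (fun j hj => hj.2) hT.nonempty ?_ ?_
      · intro B
        obtain ⟨b, hb⟩ := hunb B
        obtain ⟨k, hk, hkB⟩ := hT.exists_gt (max b B)
        exact ⟨k, hk, (le_max_right _ _).trans_lt hkB, (hb k hk.1 ((le_max_left _ _).trans hkB.le)).le⟩
      · intro i hi s hs
        exact hcol i s hi.1 (fun j hj => (hs j hj).2)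
    · have hT0 : {j | 2 ≤ j ∧ E j < K (R j)}.Infinite := by
        intro hfin
        have : (Set.Ici 2 : Set ℕ).Finite := by
          refine ((Set.not_infinite.mp hT).union hfin).subset ?_
          intro j hj
          rcases le_or_gt (K (R j)) (E j) with h1 | h1
          · exact Or.inl ⟨hj, h1⟩
          · exact Or.inr ⟨hj, h1⟩
        exact Set.Ici_infinite 2 this
      refine caseB0 (R := R) (E := E) (x := x) (P := P) hT0 (fun j _ => hx.id_le j)
        (fun j hj => (hRE j hj.1).1) (fun j hj => (hRE j hj.1).2.1) (fun j hj => hj.2) ?_ ?_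
      · intro B
        obtain ⟨b, hb⟩ := hunb B
        exact ⟨b, fun k hk hbk => hb k hk.1 hbk⟩
      · intro i hi s hs
        exact hcol i s hi.1 (fun j hj => (hs j hj).2)


/-- The elements `x_i ^ (x_{j_1} ... x_{j_k})` with `i < j_1 < ... < j_k` belong to `FE^I`. -/
lemma mem_FEI (x : ℕ → ℕ) : ∀ (N i : ℕ) (s : Finset ℕ), i ≤ N → (∀ j ∈ s, i < j) →
    (∀ j ∈ s, j ≤ N) → x i ^ ∏ j ∈ s, x j ∈ FEI x N := by
  intro N
  induction N with
  | zero =>
    intro i s hi h1 h2
    have hs : s = ∅ := by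
      rw [Finset.eq_empty_iff_forall_notMem]
      intro j hj
      have := h1 j hj
      have := h2 j hj
      omega
    have hi0 : i = 0 := by omega
    subst hs hi0
    simp [FEI]
  | succ N ih =>
    intro i s hi h1 h2
    by_cases hN : N + 1 ∈ s
    · have hiN := h1 _ hN
      refine Or.inl (Or.inl ⟨x i ^ ∏ j ∈ s.erase (N + 1), x j, ?_, ?_⟩)
      · apply ih i _ (by omega)
        · intro j hj
          exact h1 j (Finset.mem_of_mem_erase hj)
        · intro j hj
          have := h2 j (Finset.mem_of_mem_erase hj)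
          have := Finset.ne_of_mem_erase hj
          omega
      · rw [← pow_mul, Finset.prod_erase_mul _ _ hN]
    · have h3 : ∀ j ∈ s, j ≤ N := by
        intro j hj
        have := h2 j hj
        have : j ≠ N + 1 := fun h => hN (h ▸ hj)
        omega
      rcases Nat.lt_or_ge N i with h4 | h4
      · have hs : s = ∅ := by
          rw [Finset.eq_empty_iff_forall_notMem]
          intro j hj
          have := h1 j hj
          have := h3 j hj
          omega
        have hi0 : i = N + 1 := by omega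
        subst hs hi0
        rw [Finset.prod_empty, pow_one]
        exact Or.inr rfl
      · exact Or.inl (Or.inr (ih i s h4 h1 h3))

lemma no_cell {C : Set ℕ} {P : Prop} (hC : ∀ n ∈ C, (col n ↔ P)) : ¬ IsExpIPI C := by
  rintro ⟨x, hx, hsub⟩
  apply no_mono x hx P
  intro i s hi hs
  apply hC
  apply hsub
  rw [Set.mem_iUnion]
  refine ⟨i + ∑ j ∈ s, j, mem_FEI x _ i s (by omega) hs ?_⟩
  intro j hj
  have : j ≤ ∑ j ∈ s, j := Finset.single_le_sum (f := fun j => j) (fun j _ => Nat.zero_le j) hj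
  omega

lemma exists_col (P : Prop) (N : ℕ) : ∃ n, N ≤ n ∧ ¬ (col n ↔ P) := by
  by_contra hcon
  push Not at hcon
  apply no_mono (fun n => n + N + 1) (by intro a b h; show a + N + 1 < b + N + 1; omega) P
  intro i s hi hs
  apply hcon
  have : 0 < ∏ j ∈ s, (j + N + 1) := Finset.prod_pos (fun j _ => by omega)
  have h2 : (i + N + 1) ^ 1 ≤ (i + N + 1) ^ ∏ j ∈ s, (j + N + 1) :=
    Nat.pow_le_pow_right (by omega) this
  rw [pow_one] at h2
  omega

/-- For every `r ≥ 2` there is a partition of `ℕ` into `r` (nonempty) cells, none of which is an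
exponential IP set of type I; the case `r = 2` is the two-cell partition. -/
theorem result : ∀ r : ℕ, 2 ≤ r → ∃ c : ℕ → Fin r, Function.Surjective c ∧
    ∀ i, ¬ IsExpIPI (c ⁻¹' {i}) := by
  intro r hr
  classical
  let c : ℕ → Fin r := fun n =>
    if h : n + 2 < r then ⟨n + 2, h⟩ else if col n then ⟨1, by omega⟩ else ⟨0, by omega⟩
  have c1 : ∀ n, n + 2 < r → (c n : ℕ) = n + 2 := by
    intro n h
    simp [c, h]
  have c2 : ∀ n, ¬ n + 2 < r → col n → (c n : ℕ) = 1 := by
    intro n h h'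
    simp [c, h, h']
  have c3 : ∀ n, ¬ n + 2 < r → ¬ col n → (c n : ℕ) = 0 := by
    intro n h h'
    simp [c, h, h']
  refine ⟨c, ?_, ?_⟩
  · intro i
    by_cases hi : 2 ≤ (i : ℕ)
    · refine ⟨(i : ℕ) - 2, Fin.ext ?_⟩
      have := i.isLt
      rw [c1 _ (by omega)]
      omega
    · have h01 : (i : ℕ) = 1 ∨ (i : ℕ) = 0 := by omega
      rcases h01 with h | h
      · obtain ⟨n, hn, hc⟩ := exists_col False r
        refine ⟨n, Fin.ext ?_⟩
        rw [c2 n (by omega) (by tauto), h]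
      · obtain ⟨n, hn, hc⟩ := exists_col True r
        refine ⟨n, Fin.ext ?_⟩
        rw [c3 n (by omega) (by tauto), h]
  · intro i
    by_cases hi : 2 ≤ (i : ℕ)
    · rintro ⟨x, hx, hsub⟩
      have m0 : x 0 ∈ c ⁻¹' {i} := hsub (Set.mem_iUnion.mpr ⟨0, rfl⟩)
      have m1 : x 1 ∈ c ⁻¹' {i} := hsub (Set.mem_iUnion.mpr ⟨1, Or.inr rfl⟩)
      have e0 : (c (x 0) : ℕ) = i := congrArg Fin.val m0
      have e1 : (c (x 1) : ℕ) = i := congrArg Fin.val m1
      have key : ∀ n, (c n : ℕ) = i → n + 2 = i := by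
        intro n hn
        by_cases h1 : n + 2 < r
        · rw [← hn, c1 n h1]
        · by_cases h2 : col n
          · rw [c2 n h1 h2] at hn
            omega
          · rw [c3 n h1 h2] at hn
            omega
      have := key _ e0
      have := key _ e1
      have := hx (show 0 < 1 by norm_num)
      omega
    · apply no_cell (P := (i : ℕ) = 1)
      intro n hn
      have e : (c n : ℕ) = i := congrArg Fin.val hn
      by_cases h1 : n + 2 < r
      · rw [c1 n h1] at e
        omega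
      · by_cases h2 : col n
        · rw [c2 n h1 h2] at e
          exact ⟨fun _ => e.symm, fun _ => h2⟩
        · rw [c3 n h1 h2] at e
          exact ⟨fun h => absurd h h2, fun h => by omega⟩

end Pool.Agent.Results.MP_952e1b_co.TypeI
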